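import Pool.Agent.MP_a79c01_pr.H34.Build

/-!
# Making the public part accurate
-/

open Finset Filter Topology

namespace Pool.Agent.MP_a79c01_pr

/-- Product tests with small errors. -/
theorem exists_test (M : Model) {ε : ℝ} (hε : 0 < ε) :
    ∃ (m : ℕ) (G : (Fin m → Bool) → Bool), 1 ≤ m ∧
      ∀ θ, ∑ y ∈ (univ : Finset (Fin m → Bool)).filter (fun y => G y = !θ),
        ∏ j, M.w θ (y j) ≤ ε := by
  classical
  set r : ℝ := ∑ σ : Bool, √(M.w false σ * M.w true σ) with hr
  have hr0 : 0 ≤ r := Finset.sum_nonneg (fun _ _ => Real.sqrt_nonneg _)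
  have hlt : ∀ σ : Bool, √(M.w false σ * M.w true σ) < (M.w false σ + M.w true σ) / 2 := by
    intro σ
    have h0 := M.w_pos false σ
    have h1 := M.w_pos true σ
    have hne : M.w false σ ≠ M.w true σ := by
      have := M.w_lt σ
      cases σ
      · simpa using this.ne'
      · simpa using this.ne
    rw [Real.sqrt_lt' (by linarith)]
    have : 0 < (M.w false σ - M.w true σ) ^ 2 := by
      have := sub_ne_zero.2 hne
      positivity
    nlinarith
  have hr1 : r < 1 := by
    have h1 : r < ∑ σ : Bool, (M.w false σ + M.w true σ) / 2 := by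
      rw [hr]
      exact Finset.sum_lt_sum_of_nonempty Finset.univ_nonempty (fun σ _ => hlt σ)
    have h2 : ∑ σ : Bool, (M.w false σ + M.w true σ) / 2 = 1 := by
      have e1 := M.w_sum false true
      have e2 := M.w_sum true true
      simp only [Fintype.sum_bool]
      simp only [Bool.not_true] at e1 e2
      linarith
    linarith
  obtain ⟨m, hm⟩ := ((tendsto_pow_atTop_nhds_zero_of_lt_one hr0 hr1).eventually_lt_const hε).exists
  have hm' : r ^ (m + 1) ≤ ε := (pow_le_pow_of_le_one hr0 hr1.le (Nat.le_succ m)).trans hm.le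
  let G : (Fin (m + 1) → Bool) → Bool := fun y =>
    decide (∏ j, M.w false (y j) < ∏ j, M.w true (y j))
  refine ⟨m + 1, G, by omega, fun θ => ?_⟩
  have hpw : ∀ (θ : Bool) (y : Fin (m + 1) → Bool), 0 < ∏ j, M.w θ (y j) := fun θ y =>
    Finset.prod_pos (fun j _ => M.w_pos _ _)
  have hcmp : ∀ y : Fin (m + 1) → Bool, G y = (!θ) → ∏ j, M.w θ (y j) ≤
      ∏ j, √(M.w false (y j) * M.w true (y j)) := by
    intro y hy
    have hle : ∏ j, M.w θ (y j) ≤ ∏ j, M.w (!θ) (y j) := by
      cases θ
      · simp only [G, Bool.not_false, decide_eq_true_eq] at hy ⊢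
        exact hy.le
      · simp only [G, Bool.not_true, decide_eq_false_iff_not, not_lt] at hy ⊢
        exact hy
    have hsq : ∏ j, √(M.w false (y j) * M.w true (y j)) =
        √((∏ j, M.w θ (y j)) * ∏ j, M.w (!θ) (y j)) := by
      rw [← Finset.prod_mul_distrib, Real.sqrt_prod]
      · refine Finset.prod_congr rfl (fun j _ => ?_)
        cases θ
        · rfl
        · simp [mul_comm]
      · intro j _
        exact (mul_pos (M.w_pos _ _) (M.w_pos _ _)).le
    rw [hsq]
    refine Real.le_sqrt_of_sq_le ?_
    rw [sq]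
    exact mul_le_mul_of_nonneg_left hle (hpw θ y).le
  calc ∑ y ∈ (univ : Finset (Fin (m + 1) → Bool)).filter (fun y => G y = !θ),
        ∏ j, M.w θ (y j)
      ≤ ∑ y ∈ (univ : Finset (Fin (m + 1) → Bool)).filter (fun y => G y = !θ),
        ∏ j, √(M.w false (y j) * M.w true (y j)) :=
        Finset.sum_le_sum (fun y hy => hcmp y (Finset.mem_filter.1 hy).2)
    _ ≤ ∑ y : Fin (m + 1) → Bool, ∏ j, √(M.w false (y j) * M.w true (y j)) :=
        Finset.sum_le_sum_of_subset_of_nonneg (Finset.filter_subset _ _)
          (fun y _ _ => Finset.prod_nonneg (fun j _ => Real.sqrt_nonneg _))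
    _ = r ^ (m + 1) := by
        rw [hr, Fintype.sum_pow]
    _ ≤ ε := hm'

/-- The signal sequence extending a pattern of the first `n` signals. -/
def exty {n : ℕ} (x : Fin n → Bool) : Om := fun i => if h : i < n then x ⟨i, h⟩ else false

theorem exty_restr (t : Om) {n : ℕ} : ∀ i ∈ range n, exty (fun i : Fin n => t i) i = t i := by
  intro i hi
  rw [mem_range] at hi
  simp [exty, hi]

section

variable {M : Model}

def Good (M : Model) (A : Net) (n : ℕ) (t : Om) (ε : ℝ) : Prop :=
  ∃ O ⊆ range n, Inc M A O t ∧ Acc M A O ε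

def Cov (M : Model) (A : Net) (n : ℕ) (ε : ℝ) : Prop := ∀ t, Good M A n t ε

theorem Good.ext {A B : Net} {n n' : ℕ} (h : Ext A n B n') {t : Om} {ε : ℝ}
    (hg : Good M A n t ε) : Good M B n' t ε := by
  obtain ⟨O, hO, h1, h2⟩ := hg
  exact ⟨O, hO.trans (range_subset_range.2 h.1), h1.ext h hO, h2.ext h hO⟩

theorem Cov.ext {A B : Net} {n n' : ℕ} (h : Ext A n B n') {ε : ℝ}
    (hg : Cov M A n ε) : Cov M B n' ε := fun t => (hg t).ext h

/-- Extension in which all new agents have error at most `ε`. -/
def XExt (M : Model) (ε : ℝ) (A : Net) (n : ℕ) (B : Net) (n' : ℕ) : Prop :=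
  Ext A n B n' ∧ ∀ k, n ≤ k → k < n' → Err M B k ≤ ε

theorem XExt.refl (ε : ℝ) (A : Net) (n : ℕ) : XExt M ε A n A n :=
  ⟨Ext.refl A n, fun k h1 h2 => by omega⟩

theorem XExt.trans {ε : ℝ} {A B C : Net} {n m l : ℕ} (h : XExt M ε A n B m)
    (h' : XExt M ε B m C l) : XExt M ε A n C l := by
  refine ⟨h.1.trans h'.1, fun k hk1 hk2 => ?_⟩
  by_cases hk : k < m
  · rw [h'.1.err_eq hk]
    exact h.2 k hk1 hk
  · exact h'.2 k (by omega) hk2

theorem XExt.mono {ε ε' : ℝ} (hε : ε ≤ ε') {A B : Net} {n m : ℕ} (h : XExt M ε A n B m) :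
    XExt M ε' A n B m := ⟨h.1, fun k h1 h2 => (h.2 k h1 h2).trans hε⟩

theorem loop {τ : Type*} (ε : ℝ) (S : Finset τ) (Done : τ → Net → ℕ → Prop)
    (mono : ∀ x A n B n', Ext A n B n' → Done x A n → Done x B n') (A0 : Net) (n0 : ℕ)
    (step : ∀ x ∈ S, ∀ A n, XExt M ε A0 n0 A n → ∃ B n', XExt M ε A n B n' ∧ Done x B n') :
    ∃ B n', XExt M ε A0 n0 B n' ∧ ∀ x ∈ S, Done x B n' := by
  classical
  induction S using Finset.induction_on with
  | empty => exact ⟨A0, n0, XExt.refl ε A0 n0, by simp⟩
  | insert a S ha ih =>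
    obtain ⟨B, n', h1, h2⟩ := ih (fun x hx => step x (Finset.mem_insert_of_mem hx))
    obtain ⟨C, l, h3, h4⟩ := step a (Finset.mem_insert_self a S) B n' h1
    refine ⟨C, l, h1.trans h3, fun x hx => ?_⟩
    rcases Finset.mem_insert.1 hx with rfl | hx
    · exact h4
    · exact mono x B n' C l h3.1 (h2 x hx)

/-- Step 1: replicate so that the whole public history becomes accurate. -/
theorem make_accurate {A : Net} {n : ℕ} {ε : ℝ} (hC : Cov M A n ε) {ε' : ℝ} (hε' : 0 < ε') :
    ∃ B p, XExt M ε A n B p ∧ n < p ∧ Acc M B (range p) ε' := by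
  classical
  obtain ⟨m, G, hm, hG⟩ := exists_test M hε'
  choose Ox hOx hInc hAcc using fun x : Fin n → Bool => hC (exty x)
  obtain ⟨B, p, a, hE, hainj, ha, haN, has⟩ := add_family A n
    (ι := (Fin n → Bool) × Fin m) (fun q => Ox q.1) (fun q => hOx q.1)
  have hnp : n < p := by
    have := ha (fun _ => false, ⟨0, by omega⟩)
    omega
  let repS : Set Om → (Fin n → Bool) := fun C =>
    if h : ∃ x, cell M B (range n) (exty x) = C then Classical.choose h else fun _ => false
  let rep : Om → (Fin n → Bool) := fun t => repS (cell M B (range n) t)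
  have hrepspec : ∀ t, cell M B (range n) (exty (rep t)) = cell M B (range n) t := by
    intro t
    have hex : ∃ x : Fin n → Bool, cell M B (range n) (exty x) = cell M B (range n) t := by
      refine ⟨fun i => t i, ?_⟩
      refine cell_congr ?_
      have h1 := dep_cell (M := M) (A := B) (Finset.Subset.refl (range n)) t
      exact h1 (fun i hi => (exty_restr t i hi).symm) (mem_cell_self _ t)
    simp only [rep, repS]
    rw [dif_pos hex]
    exact Classical.choose_spec hex
  have hrepcell : ∀ s t, t ∈ cell M B (range n) s → rep t = rep s := by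
    intro s t ht
    simp only [rep]
    rw [cell_congr ht]
  have hrepdep : ∀ x, Dep (range n) {t | rep t = x} := by
    intro x s t hst hs
    simp only [Set.mem_ofPred_eq] at hs ⊢
    rw [hrepcell s t ?_, hs]
    exact dep_cell (M := M) (A := B) (Finset.Subset.refl (range n)) s hst (mem_cell_self _ s)
  have hfresh : ∀ t j, act M B (a (rep t, j)) t = t (a (rep t, j)) := by
    intro t j
    have h1 : Inc M B (Ox (rep t)) (exty (rep t)) := (hInc (rep t)).ext hE (hOx _)
    have h2 := fresh_of_inc (M := M) (A := B) (z := a (rep t, j)) (haN _) ?_ h1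
    · refine h2 t ?_
      have h3 : t ∈ cell M B (range n) (exty (rep t)) := by
        rw [hrepspec]; exact mem_cell_self _ t
      exact cell_anti (hOx _) _ h3
    · exact (hOx _).trans (range_subset_range.2 (ha _).1)
  let d : Om → Bool := fun t => G (fun j => act M B (a (rep t, j)) t)
  have hd : ∀ t, d t = G (fun j => t (a (rep t, j))) := by
    intro t
    simp only [d]
    congr 1
    funext j
    exact hfresh t j
  refine ⟨B, p, ⟨hE, ?_⟩, hnp, d, ?_, ?_⟩
  · intro k hk1 hk2
    obtain ⟨q, rfl⟩ := has k hk1 hk2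
    exact err_le ((hAcc q.1).ext hE (hOx q.1)) (by rw [haN])
  · intro s t ht
    have h1 : rep t = rep s := hrepcell s t (cell_anti (range_subset_range.2 hnp.le) _ ht)
    simp only [d]
    rw [h1]
    congr 1
    funext j
    exact ht _ (mem_range.2 (ha _).2)
  · intro θ
    -- events
    let Gx : (Fin n → Bool) → Set Om := fun x => {t | G (fun j => t (a (x, j))) = !θ}
    have hGx : ∀ x, Dep (univ.image fun j => a (x, j)) (Gx x) := by
      intro x s t hst hs
      simp only [Gx, Set.mem_ofPred_eq] at hs ⊢
      rw [← hs]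
      congr 1
      funext j
      exact (hst _ (Finset.mem_image_of_mem _ (Finset.mem_univ j))).symm
    have hPGx : ∀ x, M.P θ (Gx x) ≤ ε' := by
      intro x
      let φ : Om → (Fin m → Bool) := fun t j => t (a (x, j))
      have hφ : ∀ v, Dep (univ.image fun j => a (x, j)) {t | φ t = v} := by
        intro v s t hst hs
        simp only [Set.mem_ofPred_eq] at hs ⊢
        rw [← hs]
        funext j
        exact (hst _ (Finset.mem_image_of_mem _ (Finset.mem_univ j))).symm
      rw [M.P_partition θ φ hφ (hGx x)]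
      refine le_trans ?_ (hG θ)
      rw [Finset.sum_filter]
      refine Finset.sum_le_sum (fun v _ => ?_)
      split_ifs with hv
      · have h1 : Gx x ∩ {t | φ t = v} =
            {t | ∀ j ∈ (univ : Finset (Fin m)), t ∈ {t : Om | t (a (x, j)) = v j}} := by
          ext t
          simp only [Gx, φ, Set.mem_inter_iff, Set.mem_ofPred_eq, Finset.mem_univ, true_imp_iff]
          constructor
          · rintro ⟨_, h⟩ j
            exact congrFun h j
          · intro h
            have h' : (fun j => t (a (x, j))) = v := funext h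
            exact ⟨by rw [h']; exact hv, h'⟩
        rw [h1, M.P_family θ univ (fun j => {a (x, j)}) _ (fun j => Dep.coord _ _)]
        · exact le_of_eq (Finset.prod_congr rfl (fun j _ => M.P_coord _ _ _))
        · intro j j' hjj
          rw [Finset.disjoint_singleton]
          intro h
          exact hjj (congrArg Prod.snd (hainj h))
      · have h1 : Gx x ∩ {t | φ t = v} = ∅ := by
          ext t
          simp only [Gx, φ, Set.mem_inter_iff, Set.mem_ofPred_eq, Set.mem_empty_iff_false,
            iff_false, not_and]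
          intro h h'
          rw [h'] at h
          exact hv h
        rw [h1, M.P_empty]
    have hdep1 : ∀ x, Dep (range p) {t | rep t = x} := fun x =>
      (hrepdep x).mono (range_subset_range.2 hnp.le)
    have hd1 : Dep (range p) {t | d t = !θ} := by
      intro s t hst hs
      simp only [Set.mem_ofPred_eq] at hs ⊢
      have h1 : rep t = rep s := hdep1 (rep s) hst rfl
      rw [hd, h1, ← hs, hd]
      congr 1
      funext j
      exact (hst _ (mem_range.2 (ha _).2)).symm
    rw [M.P_partition θ rep hdep1 hd1]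
    have h2 : ∀ x, M.P θ ({t | d t = !θ} ∩ {t | rep t = x}) ≤ M.P θ {t | rep t = x} * ε' := by
      intro x
      have h3 : {t | d t = !θ} ∩ {t | rep t = x} = {t | rep t = x} ∩ Gx x := by
        ext t
        simp only [Gx, Set.mem_inter_iff, Set.mem_ofPred_eq]
        constructor
        · rintro ⟨h, h'⟩
          rw [hd, h'] at h
          exact ⟨h', h⟩
        · rintro ⟨h, h'⟩
          refine ⟨?_, h⟩
          rw [hd, h]; exact h'
      rw [h3, M.P_inter θ (range n) (univ.image fun j => a (x, j)) _ _ (hrepdep x) (hGx x)]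
      · exact mul_le_mul_of_nonneg_left (hPGx x) (M.P_nonneg _ _)
      · rw [Finset.disjoint_left]
        intro i hi hi'
        rw [Finset.mem_image] at hi'
        obtain ⟨j, _, rfl⟩ := hi'
        have := (ha (x, j)).1
        rw [mem_range] at hi
        omega
    calc ∑ x, M.P θ ({t | d t = !θ} ∩ {t | rep t = x}) ≤ ∑ x, M.P θ {t | rep t = x} * ε' :=
          Finset.sum_le_sum (fun x _ => h2 x)
      _ = (∑ x, M.P θ {t | rep t = x}) * ε' := by rw [Finset.sum_mul]
      _ = 1 * ε' := by
          congr 1
          have h4 := M.P_partition θ rep hdep1 (E := Set.univ) Dep.univ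
          simp only [Set.univ_inter, M.P_univ] at h4
          exact h4.symm
      _ = ε' := one_mul _

end

end Pool.Agent.MP_a79c01_pr
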