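import Mathlib

/-!
# Abstract two-state binary-signal model: events depending on finitely many coordinates
-/

open Finset

namespace Pool.Agent.MP_a79c01_pr

/-- Signal sequences. -/
abbrev Om : Type := ℕ → Bool

/-- `A` depends only on the coordinates in `U`. -/
def Dep (U : Finset ℕ) (A : Set Om) : Prop :=
  ∀ ⦃s t : Om⦄, (∀ i ∈ U, s i = t i) → s ∈ A → t ∈ A

namespace Dep

variable {U V : Finset ℕ} {A B : Set Om}

theorem mono (h : Dep U A) (hUV : U ⊆ V) : Dep V A :=
  fun _ _ hst hs => h (fun i hi => hst i (hUV hi)) hs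

theorem iff (h : Dep U A) {s t : Om} (hst : ∀ i ∈ U, s i = t i) : s ∈ A ↔ t ∈ A :=
  ⟨h hst, h (fun i hi => (hst i hi).symm)⟩

theorem univ : Dep U Set.univ := fun _ _ _ _ => trivial

theorem empty : Dep U (∅ : Set Om) := fun _ _ _ h => h

theorem inter (hA : Dep U A) (hB : Dep V B) : Dep (U ∪ V) (A ∩ B) := by
  intro s t hst hs
  exact ⟨hA (fun i hi => hst i (mem_union_left _ hi)) hs.1,
    hB (fun i hi => hst i (mem_union_right _ hi)) hs.2⟩

theorem union (hA : Dep U A) (hB : Dep V B) : Dep (U ∪ V) (A ∪ B) := by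
  intro s t hst hs
  rcases hs with hs | hs
  · exact Or.inl (hA (fun i hi => hst i (mem_union_left _ hi)) hs)
  · exact Or.inr (hB (fun i hi => hst i (mem_union_right _ hi)) hs)

theorem compl (hA : Dep U A) : Dep U Aᶜ := by
  intro s t hst hs ht
  exact hs (hA (fun i hi => (hst i hi).symm) ht)

theorem coord (i : ℕ) (σ : Bool) : Dep {i} {s : Om | s i = σ} := by
  intro s t hst hs
  have h := hst i (mem_singleton_self i)
  simp only [Set.mem_ofPred_eq] at hs ⊢
  rw [← h, hs]

end Dep

/-- The atom of the coordinates in `U` containing `x`. -/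
def atom (U : Finset ℕ) (x : Om) : Set Om := {t | ∀ i ∈ U, t i = x i}

theorem dep_atom (U : Finset ℕ) (x : Om) : Dep U (atom U x) := by
  intro s t hst hs i hi
  rw [← hst i hi]
  exact hs i hi

/-- The probabilistic data: signal weights `w θ σ` and, for each state `θ`, the probability
`P θ` on events depending on finitely many coordinates. -/
structure Model where
  w : Bool → Bool → ℝ
  P : Bool → Set Om → ℝ
  w_pos : ∀ θ σ, 0 < w θ σ
  w_sum : ∀ θ β, w θ β + w θ (!β) = 1
  w_lt : ∀ β, w (!β) β < w β β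
  P_nonneg : ∀ θ A, 0 ≤ P θ A
  P_univ : ∀ θ, P θ Set.univ = 1
  P_coord : ∀ θ i σ, P θ {s | s i = σ} = w θ σ
  P_union : ∀ θ U A B, Dep U A → Dep U B → Disjoint A B → P θ (A ∪ B) = P θ A + P θ B
  P_inter : ∀ θ U V A B, Dep U A → Dep V B → Disjoint U V → P θ (A ∩ B) = P θ A * P θ B

namespace Model

variable (M : Model)

theorem P_empty (θ : Bool) : M.P θ ∅ = 0 := by
  have h := M.P_union θ ∅ ∅ ∅ Dep.empty Dep.empty (by simp)
  simp at h
  exact h

theorem P_mono {θ : Bool} {U : Finset ℕ} {A B : Set Om} (hA : Dep U A) (hB : Dep U B)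
    (hAB : A ⊆ B) : M.P θ A ≤ M.P θ B := by
  have hd : Dep U (Aᶜ ∩ B) := (hA.compl.inter hB).mono (by simp)
  have h := M.P_union θ U A (Aᶜ ∩ B) hA hd (by
    rw [Set.disjoint_left]
    intro x hx hx'
    exact hx'.1 hx)
  have h2 : A ∪ (Aᶜ ∩ B) = B := by
    ext x
    constructor
    · rintro (hx | hx)
      · exact hAB hx
      · exact hx.2
    · intro hx
      by_cases hxA : x ∈ A
      · exact Or.inl hxA
      · exact Or.inr ⟨hxA, hx⟩
  rw [h2] at h
  have := M.P_nonneg θ (Aᶜ ∩ B)
  linarith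

theorem P_le_one {θ : Bool} {U : Finset ℕ} {A : Set Om} (hA : Dep U A) : M.P θ A ≤ 1 := by
  have := M.P_mono (θ := θ) hA (Dep.univ (U := U)) (Set.subset_univ _)
  rwa [M.P_univ] at this

theorem P_compl {θ : Bool} {U : Finset ℕ} {A : Set Om} (hA : Dep U A) :
    M.P θ Aᶜ = 1 - M.P θ A := by
  have h := M.P_union θ U A Aᶜ hA hA.compl disjoint_compl_right
  rw [Set.union_compl_self, M.P_univ] at h
  linarith

theorem P_union_le {θ : Bool} {U : Finset ℕ} {A B : Set Om} (hA : Dep U A) (hB : Dep U B) :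
    M.P θ (A ∪ B) ≤ M.P θ A + M.P θ B := by
  have hd : Dep U (Aᶜ ∩ B) := (hA.compl.inter hB).mono (by simp)
  have h := M.P_union θ U A (Aᶜ ∩ B) hA hd (by
    rw [Set.disjoint_left]
    intro x hx hx'
    exact hx'.1 hx)
  have h2 : A ∪ (Aᶜ ∩ B) = A ∪ B := by
    ext x
    by_cases hxA : x ∈ A <;> simp [hxA]
  rw [h2] at h
  have := M.P_mono (θ := θ) hd hB (fun x hx => hx.2)
  linarith

theorem P_atom (θ : Bool) (U : Finset ℕ) (x : Om) :
    M.P θ (atom U x) = ∏ i ∈ U, M.w θ (x i) := by
  classical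
  induction U using Finset.induction_on with
  | empty =>
    have : atom ∅ x = Set.univ := by
      ext t; simp [atom]
    rw [this, M.P_univ]; simp
  | insert a U ha ih =>
    have : atom (insert a U) x = {t : Om | t a = x a} ∩ atom U x := by
      ext t; simp [atom]
    rw [this, M.P_inter θ {a} U _ _ (Dep.coord a (x a)) (dep_atom U x) (by simpa using ha),
      M.P_coord, ih, Finset.prod_insert ha]

theorem P_pos {θ : Bool} {U : Finset ℕ} {A : Set Om} (hA : Dep U A) {x : Om} (hx : x ∈ A) :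
    0 < M.P θ A := by
  have h1 : atom U x ⊆ A := fun t ht => hA (fun i hi => (ht i hi).symm) hx
  have h2 := M.P_mono (θ := θ) (dep_atom U x) hA h1
  have h3 : 0 < M.P θ (atom U x) := by
    rw [P_atom]
    exact Finset.prod_pos (fun i _ => M.w_pos θ (x i))
  linarith

/-- Product formula for a finite family of events depending on disjoint sets of coordinates. -/
theorem P_family {ι : Type*} (θ : Bool) (S : Finset ι) (V : ι → Finset ℕ) (C : ι → Set Om)
    (hC : ∀ i, Dep (V i) (C i)) (hV : ∀ i j, i ≠ j → Disjoint (V i) (V j)) :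
    M.P θ {t | ∀ i ∈ S, t ∈ C i} = ∏ i ∈ S, M.P θ (C i) := by
  classical
  induction S using Finset.induction_on with
  | empty =>
    have : {t : Om | ∀ i ∈ (∅ : Finset ι), t ∈ C i} = Set.univ := by
      ext t; simp
    rw [this, M.P_univ]; simp
  | insert a S ha ih =>
    have h1 : {t : Om | ∀ i ∈ insert a S, t ∈ C i} = C a ∩ {t | ∀ i ∈ S, t ∈ C i} := by
      ext t; simp
    have h2 : Dep (S.biUnion V) {t | ∀ i ∈ S, t ∈ C i} := by
      intro s t hst hs i hi
      exact hC i (fun j hj => hst j (Finset.mem_biUnion.2 ⟨i, hi, hj⟩)) (hs i hi)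
    rw [h1, M.P_inter θ (V a) (S.biUnion V) _ _ (hC a) h2 ?_, ih, Finset.prod_insert ha]
    rw [Finset.disjoint_biUnion_right]
    intro i hi
    exact hV a i (fun h => ha (h ▸ hi))

theorem dep_family {ι : Type*} (S : Finset ι) (V : ι → Finset ℕ) (C : ι → Set Om)
    (hC : ∀ i, Dep (V i) (C i)) [DecidableEq ℕ] :
    Dep (S.biUnion V) {t | ∀ i ∈ S, t ∈ C i} := by
  intro s t hst hs i hi
  exact hC i (fun j hj => hst j (Finset.mem_biUnion.2 ⟨i, hi, hj⟩)) (hs i hi)

/-- Decomposition of an event according to the values of a function with finitely many values. -/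
theorem P_partition {F : Type*} [Fintype F] [DecidableEq F] (θ : Bool) {U : Finset ℕ}
    (φ : Om → F) (hφ : ∀ v, Dep U {t | φ t = v}) {E : Set Om} (hE : Dep U E) :
    M.P θ E = ∑ v, M.P θ (E ∩ {t | φ t = v}) := by
  have key : ∀ S : Finset F, M.P θ (E ∩ {t | φ t ∈ S}) = ∑ v ∈ S, M.P θ (E ∩ {t | φ t = v}) := by
    intro S
    induction S using Finset.induction_on with
    | empty =>
      have : E ∩ {t | φ t ∈ (∅ : Finset F)} = ∅ := by ext t; simp
      rw [this, P_empty]; simp
    | insert a S ha ih =>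
      have h1 : E ∩ {t | φ t ∈ insert a S} = (E ∩ {t | φ t = a}) ∪ (E ∩ {t | φ t ∈ S}) := by
        ext t
        simp only [Set.mem_inter_iff, Set.mem_ofPred_eq, Finset.mem_insert, Set.mem_union]
        tauto
      have hD : Dep U {t | φ t ∈ S} := by
        intro s t hst hs
        have h2 : φ t = φ s := (hφ (φ s)) hst rfl
        simp only [Set.mem_ofPred_eq] at hs ⊢
        rw [h2]; exact hs
      rw [h1, M.P_union θ U _ _ ((hE.inter (hφ a)).mono (by simp)) ((hE.inter hD).mono (by simp)) ?_,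
        ih, Finset.sum_insert ha]
      rw [Set.disjoint_left]
      rintro x ⟨_, hx⟩ ⟨_, hx'⟩
      simp only [Set.mem_ofPred_eq] at hx hx'
      exact ha (hx ▸ hx')
  have h := key Finset.univ
  have h2 : E ∩ {t | φ t ∈ (Finset.univ : Finset F)} = E := by ext t; simp
  rw [h2] at h
  exact h

end Model

end Pool.Agent.MP_a79c01_pr
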