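import Pool.Agent.MP_a79c01_pr.H34.Gadget

/-!
# Choice of the parameters of the gadget
-/

open Finset Filter Topology

namespace Pool.Agent.MP_a79c01_pr

theorem params (M : Model) (β : Bool) {a b' : ℝ} (ha : 0 < a) (hb' : 0 < b')
    (hfav : M.w (!β) (!β) * a ≤ M.w β (!β) * b') :
    ∃ (ny K b J nn : ℕ), 1 ≤ ny ∧
      1 < a / b' * M.r1 β ^ (ny + 1) * M.r0 β ∧
      a / b' * M.r1 β ^ ny * M.r0 β ^ 2 < 1 ∧
      a / b' * M.r0 β ^ b * M.r1 β ^ (ny * K + 2) < 1 ∧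
      1 < a / b' * M.r0 β ^ (b + 2) * M.r1 β ^ ((ny + 1) * K) ∧
      M.w (!β) β * (a * M.w (!β) β ^ b *
        (M.w (!β) (!β) + (1 - M.w (!β) (!β) ^ (K * (ny + 1))) ^ nn) ^ J) <
        M.w β β * (b' * M.w β β ^ b * M.w β (!β) ^ J) ∧
      M.w β (!β) * (b' * M.w β β ^ b *
        (M.w β (!β) + (1 - M.w β (!β) ^ (K * (ny + 1))) ^ nn) ^ J) <
        M.w (!β) (!β) * (a * M.w (!β) β ^ b * M.w (!β) (!β) ^ J) := by
  classical
  set R := a / b' with hR
  set r0 := M.r0 β with hr0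
  set r1 := M.r1 β with hr1
  have hRpos : 0 < R := div_pos ha hb'
  have r0pos : 0 < r0 := M.r0_pos β
  have r0lt : r0 < 1 := M.r0_lt_one β
  have r1lt : 1 < r1 := M.one_lt_r1 β
  have r1pos : 0 < r1 := M.r1_pos β
  have haR : a = R * b' := by rw [hR, div_mul_cancel₀ _ hb'.ne']
  have hRr1 : R * r1 ≤ 1 := by
    have h1 : M.w (!β) (!β) = r1 * M.w β (!β) := M.w_r1 β
    rw [h1, haR] at hfav
    have h2 : 0 < M.w β (!β) * b' := mul_pos (M.w_pos _ _) hb'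
    have h3 : (R * r1) * (M.w β (!β) * b') ≤ 1 * (M.w β (!β) * b') := by nlinarith
    exact le_of_mul_le_mul_right h3 h2
  have t1 : Tendsto (fun n : ℕ => r1 ^ n) atTop atTop := tendsto_pow_atTop_atTop_of_one_lt r1lt
  have t0 : Tendsto (fun n : ℕ => r0 ^ n) atTop (𝓝 0) :=
    tendsto_pow_atTop_nhds_zero_of_lt_one r0pos.le r0lt
  -- `ny`
  have ex1 : ∃ n : ℕ, 1 < R * r1 ^ (n + 1) * r0 := by
    obtain ⟨n, hn⟩ := (t1.eventually_gt_atTop (1 / (R * r0))).exists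
    refine ⟨n, ?_⟩
    have h1 : 1 / (R * r0) < r1 ^ (n + 1) := hn.trans_le (pow_le_pow_right₀ r1lt.le (by omega))
    rw [div_lt_iff₀ (mul_pos hRpos r0pos)] at h1
    linarith
  let ny := Nat.find ex1
  have hny : 1 < R * r1 ^ (ny + 1) * r0 := Nat.find_spec ex1
  have hny1 : 1 ≤ ny := by
    by_contra h
    have h0 : ny = 0 := by omega
    rw [h0] at hny
    simp only [zero_add, pow_one] at hny
    nlinarith
  have hnymin : R * r1 ^ ny * r0 ≤ 1 := by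
    have := Nat.find_min ex1 (m := ny - 1) (by
      have : ny - 1 < ny := by omega
      exact this)
    rw [not_lt, Nat.sub_add_cancel hny1] at this
    exact this
  have hC2 : R * r1 ^ ny * r0 ^ 2 < 1 := by
    calc R * r1 ^ ny * r0 ^ 2 = (R * r1 ^ ny * r0) * r0 := by ring
      _ ≤ 1 * r0 := mul_le_mul_of_nonneg_right hnymin r0pos.le
      _ < 1 := by linarith
  -- `K`
  have ex2 : ∃ K' : ℕ, 1 < r0 ^ 3 * r1 ^ K' ∧ 1 < R * r0 ^ 2 * r1 ^ K' := by
    obtain ⟨n, hn, hn'⟩ := ((t1.eventually_gt_atTop (1 / (r0 ^ 3))).and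
      (t1.eventually_gt_atTop (1 / (R * r0 ^ 2)))).exists
    refine ⟨n, ?_, ?_⟩
    · rw [div_lt_iff₀ (pow_pos r0pos _)] at hn
      linarith
    · rw [div_lt_iff₀ (mul_pos hRpos (pow_pos r0pos _))] at hn'
      linarith
  obtain ⟨K', hK1, hK2⟩ := ex2
  let K := K' + 2
  have hK3 : 1 < R * r0 ^ 2 * r1 ^ ((ny + 1) * K) := by
    have h1 : K' ≤ (ny + 1) * K := by
      simp only [K]; nlinarith
    have h2 : r1 ^ K' ≤ r1 ^ ((ny + 1) * K) := pow_le_pow_right₀ r1lt.le h1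
    have h3 : 0 < R * r0 ^ 2 := mul_pos hRpos (pow_pos r0pos _)
    calc 1 < R * r0 ^ 2 * r1 ^ K' := hK2
      _ ≤ _ := mul_le_mul_of_nonneg_left h2 h3.le
  -- `b`
  have ex3 : ∃ b : ℕ, R * r0 ^ b * r1 ^ (ny * K + 2) < 1 := by
    have h1 : 0 < 1 / (R * r1 ^ (ny * K + 2)) := by positivity
    obtain ⟨n, hn⟩ := (t0.eventually_lt_const h1).exists
    refine ⟨n, ?_⟩
    rw [lt_div_iff₀ (mul_pos hRpos (pow_pos r1pos _))] at hn
    linarith
  let b := Nat.find ex3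
  have hT1 : R * r0 ^ b * r1 ^ (ny * K + 2) < 1 := Nat.find_spec ex3
  have hT2 : 1 < R * r0 ^ (b + 2) * r1 ^ ((ny + 1) * K) := by
    rcases Nat.eq_zero_or_pos b with hb0 | hbpos
    · rw [hb0, zero_add]; exact hK3
    · have h1 := Nat.find_min ex3 (m := b - 1) (by
        have : b - 1 < b := by omega
        exact this)
      rw [not_lt] at h1
      have e1 : r0 ^ (b + 2) = r0 ^ (b - 1) * r0 ^ 3 := by
        rw [← pow_add]; congr 1; omega
      have e2 : r1 ^ ((ny + 1) * K) = r1 ^ (ny * K + 2) * r1 ^ K' := by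
        rw [← pow_add]; congr 1; simp only [K]; ring
      rw [e1, e2]
      calc 1 < r0 ^ 3 * r1 ^ K' := hK1
        _ = 1 * (r0 ^ 3 * r1 ^ K') := (one_mul _).symm
        _ ≤ (R * r0 ^ (b - 1) * r1 ^ (ny * K + 2)) * (r0 ^ 3 * r1 ^ K') :=
            mul_le_mul_of_nonneg_right h1 (by positivity)
        _ = _ := by ring
  -- `J`
  have hRb : R * r0 ^ b ≤ R := by
    have := pow_le_one₀ r0pos.le r0lt.le (n := b)
    nlinarith
  have ex4 : ∃ J : ℕ, 1 < R * r0 ^ b * r1 ^ J * r1 := by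
    obtain ⟨n, hn⟩ := (t1.eventually_gt_atTop (1 / (R * r0 ^ b * r1))).exists
    refine ⟨n, ?_⟩
    rw [div_lt_iff₀ (by positivity)] at hn
    linarith
  let J := Nat.find ex4
  have hJ : 1 < R * r0 ^ b * r1 ^ J * r1 := Nat.find_spec ex4
  have hJ1 : 1 ≤ J := by
    by_contra h
    have h0 : J = 0 := by omega
    rw [h0, pow_zero, mul_one] at hJ
    nlinarith
  have hJmin : R * r0 ^ b * r1 ^ J ≤ 1 := by
    have := Nat.find_min ex4 (m := J - 1) (by
      have : J - 1 < J := by omega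
      exact this)
    rw [not_lt] at this
    calc R * r0 ^ b * r1 ^ J = R * r0 ^ b * r1 ^ (J - 1) * r1 := by
          rw [mul_assoc (R * r0 ^ b), ← pow_succ, Nat.sub_add_cancel hJ1]
      _ ≤ 1 := this
  -- limit
  set L := K * (ny + 1) with hL
  have tη : ∀ θ, Tendsto (fun nn : ℕ => (1 - M.w θ (!β) ^ L) ^ nn) atTop (𝓝 0) := by
    intro θ
    have hw := M.w_pos θ (!β)
    have hw1 : M.w θ (!β) < 1 := by
      have := M.w_sum θ β
      have := M.w_pos θ β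
      linarith
    have h1 : 0 < M.w θ (!β) ^ L := pow_pos hw _
    have h2 : M.w θ (!β) ^ L ≤ 1 := pow_le_one₀ hw.le hw1.le
    exact tendsto_pow_atTop_nhds_zero_of_lt_one (by linarith) (by linarith)
  have tlim : ∀ (θ : Bool) (c d : ℝ), Tendsto (fun nn : ℕ => c * (d *
      (M.w θ (!β) + (1 - M.w θ (!β) ^ L) ^ nn) ^ J)) atTop (𝓝 (c * (d * M.w θ (!β) ^ J))) := by
    intro θ c d
    have h1 : Tendsto (fun nn : ℕ => M.w θ (!β) + (1 - M.w θ (!β) ^ L) ^ nn) atTop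
        (𝓝 (M.w θ (!β))) := by
      simpa using (tη θ).const_add (M.w θ (!β))
    exact ((h1.pow J).const_mul d).const_mul c
  have wr0 : M.w (!β) β = r0 * M.w β β := M.w_r0 β
  have wr1 : M.w (!β) (!β) = r1 * M.w β (!β) := M.w_r1 β
  have hpos : 0 < b' * M.w β β ^ b * M.w β (!β) ^ J :=
    mul_pos (mul_pos hb' (pow_pos (M.w_pos _ _) _)) (pow_pos (M.w_pos _ _) _)
  have L1 : M.w (!β) β * (a * M.w (!β) β ^ b * M.w (!β) (!β) ^ J) <
      M.w β β * (b' * M.w β β ^ b * M.w β (!β) ^ J) := by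
    have e : M.w (!β) β * (a * M.w (!β) β ^ b * M.w (!β) (!β) ^ J) =
        (r0 * (R * r0 ^ b * r1 ^ J)) * (M.w β β * (b' * M.w β β ^ b * M.w β (!β) ^ J)) := by
      rw [wr0, wr1, haR, mul_pow, mul_pow]; ring
    rw [e]
    have h1 : 0 < M.w β β * (b' * M.w β β ^ b * M.w β (!β) ^ J) :=
      mul_pos (M.w_pos _ _) hpos
    have h2 : r0 * (R * r0 ^ b * r1 ^ J) < 1 := by
      calc r0 * (R * r0 ^ b * r1 ^ J) ≤ r0 * 1 := mul_le_mul_of_nonneg_left hJmin r0pos.le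
        _ < 1 := by linarith
    nlinarith
  have L2 : M.w β (!β) * (b' * M.w β β ^ b * M.w β (!β) ^ J) <
      M.w (!β) (!β) * (a * M.w (!β) β ^ b * M.w (!β) (!β) ^ J) := by
    have e : M.w (!β) (!β) * (a * M.w (!β) β ^ b * M.w (!β) (!β) ^ J) =
        (R * r0 ^ b * r1 ^ J * r1) * (M.w β (!β) * (b' * M.w β β ^ b * M.w β (!β) ^ J)) := by
      rw [wr0, wr1, haR, mul_pow, mul_pow]; ring
    rw [e]
    have h1 : 0 < M.w β (!β) * (b' * M.w β β ^ b * M.w β (!β) ^ J) :=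
      mul_pos (M.w_pos _ _) hpos
    nlinarith
  obtain ⟨nn, hN1, hN2⟩ := (((tlim (!β) (M.w (!β) β) (a * M.w (!β) β ^ b)).eventually_lt_const
    L1).and ((tlim β (M.w β (!β)) (b' * M.w β β ^ b)).eventually_lt_const L2)).exists
  exact ⟨ny, K, b, J, nn, hny1, hny, hC2, hT1, hT2, hN1, hN2⟩

end Pool.Agent.MP_a79c01_pr
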