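import Pool.Agent.MP_a79c01_pr.H34.Observer
import Pool.Agent.MP_a79c01_pr.H34.Params

/-!
# Building the gadget inside a network
-/

open Finset

namespace Pool.Agent.MP_a79c01_pr

theorem add_family (A : Net) (n : ℕ) {ι : Type} [Fintype ι] (O : ι → Finset ℕ)
    (hO : ∀ i, O i ⊆ range n) :
    ∃ (B : Net) (n' : ℕ) (a : ι → ℕ), Ext A n B n' ∧ Function.Injective a ∧
      (∀ i, n ≤ a i ∧ a i < n') ∧ (∀ i, B.N (a i) = O i) ∧
      (∀ k, n ≤ k → k < n' → ∃ i, a i = k) := by
  classical
  let e := Fintype.equivFin ι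
  let N' : ℕ → Finset ℕ := fun k =>
    if k < n then A.N k
    else if h : k - n < Fintype.card ι then O (e.symm ⟨k - n, h⟩) else ∅
  have hval : ∀ k, ∀ m ∈ N' k, m < k := by
    intro k m hm
    simp only [N'] at hm
    split_ifs at hm with h1 h2
    · exact A.valid k m hm
    · have := hO _ hm
      rw [mem_range] at this
      omega
    · simp at hm
  have hN'1 : ∀ k < n, N' k = A.N k := fun k hk => by simp only [N']; rw [if_pos hk]
  have hN'2 : ∀ i, N' (n + (e i : ℕ)) = O i := by
    intro i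
    simp only [N']
    rw [if_neg (by omega)]
    have h : n + (e i : ℕ) - n < Fintype.card ι := by
      rw [Nat.add_sub_cancel_left]; exact (e i).2
    rw [dif_pos h]
    congr 1
    have : (⟨n + (e i : ℕ) - n, h⟩ : Fin (Fintype.card ι)) = e i := by
      ext; simp
    rw [this]; simp
  refine ⟨⟨N', hval⟩, n + Fintype.card ι, fun i => n + (e i : ℕ), ⟨by omega, hN'1⟩, ?_, ?_, hN'2,
    ?_⟩
  · intro i j hij
    have : (e i : ℕ) = (e j : ℕ) := by simpa using hij
    exact e.injective (Fin.ext this)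
  · intro i
    have := (e i).2
    show n ≤ n + (e i : ℕ) ∧ n + (e i : ℕ) < n + Fintype.card ι
    omega
  · intro k hk1 hk2
    refine ⟨e.symm ⟨k - n, by omega⟩, ?_⟩
    simp only [Equiv.apply_symm_apply]
    omega

section

variable {M : Model}

theorem Ext.fresh {A B : Net} {n n' : ℕ} (h : Ext A n B n') {H : Set Om} {z : ℕ} (hz : z < n)
    (hf : Fresh M A H z) : Fresh M B H z := by
  intro t ht
  rw [h.act_eq z hz]
  exact hf t ht

theorem gadget_build {A : Net} {n p : ℕ} {Q Z : Finset ℕ} {s : Om} {β : Bool}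
    (hQp : Q ⊆ range p) (hpn : p ≤ n) (hZ : ∀ z ∈ Z, p ≤ z ∧ z < n)
    (hfresh : ∀ z ∈ Z, Fresh M A (cell M A Q s) z)
    {ny K b J nn : ℕ} {R : ℝ} (hR0 : 0 < R)
    (hR : M.P (!β) (cell M A Q s) = R * M.P β (cell M A Q s))
    (hny : 1 ≤ ny)
    (C1 : 1 < R * M.r1 β ^ (ny + 1) * M.r0 β) (C2 : R * M.r1 β ^ ny * M.r0 β ^ 2 < 1)
    (T1 : R * M.r0 β ^ b * M.r1 β ^ (ny * K + 2) < 1)
    (T2 : 1 < R * M.r0 β ^ (b + 2) * M.r1 β ^ ((ny + 1) * K))
    (N1 : M.w (!β) β * (M.P (!β) (cell M A Q s) * M.w (!β) β ^ b *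
        (M.w (!β) (!β) + (1 - M.w (!β) (!β) ^ (K * (ny + 1))) ^ nn) ^ J) <
      M.w β β * (M.P β (cell M A Q s) * M.w β β ^ b * M.w β (!β) ^ J))
    (N2 : M.w β (!β) * (M.P β (cell M A Q s) * M.w β β ^ b *
        (M.w β (!β) + (1 - M.w β (!β) ^ (K * (ny + 1))) ^ nn) ^ J) <
      M.w (!β) (!β) * (M.P (!β) (cell M A Q s) * M.w (!β) β ^ b * M.w (!β) (!β) ^ J))
    (hcard : b + (J + J * (nn * (K * ny))) ≤ Z.card) :
    ∃ (B : Net) (n' : ℕ) (O : Finset ℕ), Ext A n B n' ∧
      (∀ k, n ≤ k → k < n' → Q ⊆ B.N k) ∧ Q ⊆ O ∧ O ⊆ range n' ∧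
      ∀ t ∈ cell M A Q s, (∀ z ∈ Z, t z = β) → Inc M B O t := by
  classical
  -- choice of the supply agents
  have hne : Nonempty ((Fin b ⊕ (Fin J ⊕ (Fin J × (Fin nn × (Fin K × Fin ny))))) ↪ Z) := by
    apply Function.Embedding.nonempty_of_card_le
    simpa using hcard
  obtain ⟨f⟩ := hne
  let z : (Fin b ⊕ (Fin J ⊕ (Fin J × (Fin nn × (Fin K × Fin ny))))) → ℕ := fun i => (f i : ℕ)
  have hzinj : Function.Injective z := fun i j hij => f.injective (Subtype.ext hij)
  have hzZ : ∀ i, z i ∈ Z := fun i => (f i).2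
  have hzp : ∀ i, p ≤ z i := fun i => (hZ _ (hzZ i)).1
  have hzn : ∀ i, z i < n := fun i => (hZ _ (hzZ i)).2
  let B : Finset ℕ := univ.image (fun i : Fin b => z (Sum.inl i))
  let x : Fin J → ℕ := fun j => z (Sum.inr (Sum.inl j))
  let Y : Fin J × (Fin nn × Fin K) → Finset ℕ := fun q =>
    univ.image (fun y : Fin ny => z (Sum.inr (Sum.inr (q.1, (q.2.1, (q.2.2, y))))))
  have memB : ∀ a, a ∈ B ↔ ∃ i, z (Sum.inl i) = a := fun a => by simp [B]
  have memY : ∀ q a, a ∈ Y q ↔
      ∃ y, z (Sum.inr (Sum.inr (q.1, (q.2.1, (q.2.2, y))))) = a := fun q a => by simp [Y]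
  have hQn : Q ⊆ range n := hQp.trans (range_subset_range.2 hpn)
  have hBn : B ⊆ range n := by
    intro a ha
    obtain ⟨i, rfl⟩ := (memB a).1 ha
    simpa using hzn _
  have hYn : ∀ q, Y q ⊆ range n := by
    intro q a ha
    obtain ⟨i, rfl⟩ := (memY q a).1 ha
    simpa using hzn _
  have hxn : ∀ j, x j < n := fun j => hzn _
  -- first family
  obtain ⟨A1, n1, c, hE1, hcinj, hc, hcN, hcs⟩ := add_family A n
    (ι := Fin J × (Fin nn × Fin K)) (fun q => Q ∪ insert (x q.1) (Y q)) (by
      intro q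
      refine Finset.union_subset hQn (Finset.insert_subset (by simpa using hxn q.1) (hYn q)))
  -- second family
  have hn1 := hE1.1
  obtain ⟨A2, n2, T, hE2, hTinj, hT, hTN, hTs⟩ := add_family A1 n1
    (ι := Fin J × Fin nn)
    (fun q => Q ∪ (B ∪ insert (x q.1) (univ.image fun k => c (q.1, (q.2, k))))) (by
      intro q
      have h1 : range n ⊆ range n1 := range_subset_range.2 hn1
      refine Finset.union_subset (hQn.trans h1) (Finset.union_subset (hBn.trans h1)
        (Finset.insert_subset (h1 (by simpa using hxn q.1)) ?_))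
      intro a ha
      rw [Finset.mem_image] at ha
      obtain ⟨k, _, rfl⟩ := ha
      simpa using (hc _).2)
  have hn2 := hE2.1
  have hE := hE1.trans hE2
  have hcell : cell M A2 Q s = cell M A Q s := hE.cell_eq hQn s
  have hfr : ∀ a ∈ Z, Fresh M A2 (cell M A2 Q s) a := by
    intro a ha
    rw [hcell]
    exact hE.fresh (hZ a ha).2 (hfresh a ha)
  have hU : Dep (range p) (cell M A2 Q s) := dep_cell hQp s
  let V : Fin J × (Fin nn × Fin K) → Finset ℕ := fun q => insert (c q) (Y q)
  let W : Fin J × Fin nn → Finset ℕ := fun q => univ.biUnion (fun k : Fin K => V (q.1, (q.2, k)))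
  have memV : ∀ q a, a ∈ V q ↔ (a = c q ∨
      ∃ y, z (Sum.inr (Sum.inr (q.1, (q.2.1, (q.2.2, y))))) = a) := fun q a => by
    simp only [V, Finset.mem_insert, memY]
  have hVinj : ∀ q q', q ≠ q' → Disjoint (V q) (V q') := by
    intro q q' hqq
    rw [Finset.disjoint_left]
    intro a ha ha'
    rw [memV] at ha ha'
    rcases ha with rfl | ⟨y, rfl⟩ <;> rcases ha' with ha' | ⟨y', ha'⟩
    · exact hqq (hcinj ha')
    · have h1 := (hc q).1
      have h2 := hzn (Sum.inr (Sum.inr (q'.1, (q'.2.1, (q'.2.2, y')))))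
      omega
    · have h1 := (hc q').1
      have h2 := hzn (Sum.inr (Sum.inr (q.1, (q.2.1, (q.2.2, y)))))
      omega
    · have h := hzinj ha'
      simp only [Sum.inr.injEq, Prod.mk.injEq] at h
      exact hqq (Prod.ext h.1.symm (Prod.ext h.2.1.symm h.2.2.1.symm))
  have hcY : ∀ q q', c q ∉ Y q' := by
    intro q q' h
    obtain ⟨y, hy⟩ := (memY _ _).1 h
    have h1 := (hc q).1
    have h2 := hzn (Sum.inr (Sum.inr (q'.1, (q'.2.1, (q'.2.2, y)))))
    omega
  have hYcard : ∀ q, (Y q).card = ny := by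
    intro q
    simp only [Y]
    rw [Finset.card_image_of_injective, Finset.card_univ, Fintype.card_fin]
    intro y y' hyy
    have h := hzinj hyy
    simpa using h
  have hBcard : B.card = b := by
    simp only [B]
    rw [Finset.card_image_of_injective, Finset.card_univ, Fintype.card_fin]
    intro y y' hyy
    have h := hzinj hyy
    simpa using h
  have hVcard : ∀ q, (V q).card = ny + 1 := fun q => by
    simp only [V]
    rw [Finset.card_insert_of_notMem (hcY q q), hYcard q]
  have hxB : ∀ j, x j ∉ B := by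
    intro j h
    obtain ⟨i, hi⟩ := (memB _).1 h
    have := hzinj hi
    simp at this
  have hxinj : Function.Injective x := by
    intro j j' h
    have := hzinj h
    simpa using this
  have hxV : ∀ j q, x j ∉ V q := by
    intro j q h
    rcases (memV _ _).1 h with h | ⟨y, h⟩
    · have h1 := (hc q).1
      have h2 := hxn j
      omega
    · have := hzinj h
      simp at this
  have hBV : ∀ q, Disjoint B (V q) := by
    intro q
    rw [Finset.disjoint_left]
    intro a ha ha'
    obtain ⟨i, rfl⟩ := (memB _).1 ha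
    rcases (memV _ _).1 ha' with h | ⟨y, h⟩
    · have h1 := (hc q).1
      have h2 := hzn (Sum.inl i)
      omega
    · have := hzinj h
      simp at this
  have hUV : ∀ q, Disjoint (range p) (V q) := by
    intro q
    rw [Finset.disjoint_left]
    intro a ha ha'
    rw [mem_range] at ha
    rcases (memV _ _).1 ha' with h | ⟨y, h⟩
    · have h1 := (hc q).1
      omega
    · have := hzp (Sum.inr (Sum.inr (q.1, (q.2.1, (q.2.2, y)))))
      omega
  have hUB : Disjoint (range p) B := by
    rw [Finset.disjoint_left]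
    intro a ha ha'
    rw [mem_range] at ha
    obtain ⟨i, rfl⟩ := (memB _).1 ha'
    have := hzp (Sum.inl i)
    omega
  have hUx : ∀ j, x j ∉ range p := by
    intro j h
    rw [mem_range] at h
    have : p ≤ x j := hzp _
    omega
  have hTV : ∀ r q, T r ∉ V q := by
    intro r q h
    have h0 := (hT r).1
    rcases (memV _ _).1 h with h | ⟨y, h⟩
    · have h1 := (hc q).2
      omega
    · have := hzn (Sum.inr (Sum.inr (q.1, (q.2.1, (q.2.2, y)))))
      omega
  have hTB : ∀ r, T r ∉ B := by
    intro r h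
    have h0 := (hT r).1
    obtain ⟨i, hi⟩ := (memB _).1 h
    have := hzn (Sum.inl i)
    omega
  have hTx : ∀ r j, T r ≠ x j := by
    intro r j h
    have h0 := (hT r).1
    have h1 := hxn j
    omega
  have hTp : ∀ r, T r ∉ range p := by
    intro r h
    rw [mem_range] at h
    have h0 := (hT r).1
    omega
  -- the T-agents
  have key : ∀ r : Fin J × Fin nn, ∀ t ∈ cell M A2 Q s, (∀ a ∈ B, t a = β) →
      (t (x r.1) = (!β) → act M A2 (T r) t = β) ∧
      ((∀ k, ∀ a ∈ Y (r.1, (r.2, k)), t a = β) → t (x r.1) = β → act M A2 (T r) t = β) ∧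
      (t (x r.1) = β → (∀ k, ∀ a ∈ V (r.1, (r.2, k)), t a = !β) →
        act M A2 (T r) t = !β) := by
    intro r t ht htB
    refine act_T (M := M) (A := A2) (Q := Q) (U := range p) (B := B) (s := s) (x := x r.1)
      (T := T r) (K := K) (ny := ny) (b := b) (Y := fun k => Y (r.1, (r.2, k)))
      (c := fun k => c (r.1, (r.2, k))) ?_ ?_ ?_ ?_ ?_ hU ?_ ?_ ?_ (hxB _) ?_ hBcard
      (fun k => hcY _ _) (fun k => hYcard _) hny hR0 ?_ C1 C2 T1 T2 ht htB
    · intro m
      rw [hTN]
      simp only [Finset.mem_union, Finset.mem_insert, Finset.mem_image, Finset.mem_univ, true_and]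
      constructor
      · rintro (h | h | h | ⟨k, h⟩)
        · exact Or.inl h
        · exact Or.inr (Or.inl h)
        · exact Or.inr (Or.inr (Or.inl h))
        · exact Or.inr (Or.inr (Or.inr ⟨k, h.symm⟩))
      · rintro (h | h | h | ⟨k, h⟩)
        · exact Or.inl h
        · exact Or.inr (Or.inl h)
        · exact Or.inr (Or.inr (Or.inl h))
        · exact Or.inr (Or.inr (Or.inr ⟨k, h.symm⟩))
    · intro k
      rw [hE2.2 _ (hc _).2, hcN]
    · intro a ha
      obtain ⟨i, rfl⟩ := (memB _).1 ha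
      exact hfr _ (hzZ _)
    · exact hfr _ (hzZ _)
    · intro k a ha
      obtain ⟨i, rfl⟩ := (memY _ _).1 ha
      exact hfr _ (hzZ _)
    · rw [Finset.disjoint_insert_right, Finset.disjoint_insert_right]
      exact ⟨hTp r, hUx _, hUB⟩
    · intro k
      change Disjoint _ (V (r.1, (r.2, k)))
      rw [Finset.disjoint_union_left, Finset.disjoint_insert_left, Finset.disjoint_insert_left]
      exact ⟨hUV _, hTV _ _, hxV _ _, hBV _⟩
    · intro k k' hkk
      exact hVinj _ _ (fun h => hkk (by simpa using h))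
    · rw [Finset.mem_insert, not_or]
      exact ⟨hTx _ _, hTB _⟩
    · rw [hcell]; exact hR
  refine ⟨A2, n2, Q ∪ (B ∪ univ.image T), hE, ?_, Finset.subset_union_left, ?_, ?_⟩
  · intro k hk1 hk2
    by_cases hk : k < n1
    · obtain ⟨q, rfl⟩ := hcs k hk1 hk
      rw [hE2.2 _ hk, hcN]
      exact Finset.subset_union_left
    · obtain ⟨q, rfl⟩ := hTs k (by omega) hk2
      rw [hTN]
      exact Finset.subset_union_left
  · have h1 : range n ⊆ range n2 := range_subset_range.2 (hn1.trans hn2)
    refine Finset.union_subset (hQn.trans h1) (Finset.union_subset (hBn.trans h1) ?_)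
    intro a ha
    rw [Finset.mem_image] at ha
    obtain ⟨r, _, rfl⟩ := ha
    simpa using (hT r).2
  · intro t ht htZ
    have ht2 : t ∈ cell M A2 Q s := by rw [hcell]; exact ht
    have htB : ∀ a ∈ B, t a = β := by
      intro a ha
      obtain ⟨i, rfl⟩ := (memB _).1 ha
      exact htZ _ (hzZ _)
    refine observer (M := M) (A := A2) (Q := Q) (U := range p) (B := B) (s := s) (x := x)
      (T := T) (W := W) (L := K * (ny + 1)) (β := β) ?_ hU hUB ?_ hxinj ?_ ?_ ?_ hBcard ?_ ?_ ?_
      (by rw [hcell]; exact N1) (by rw [hcell]; exact N2) ht2 htB ?_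
    · intro a ha
      obtain ⟨i, rfl⟩ := (memB _).1 ha
      exact hfr _ (hzZ _)
    · intro j h
      rcases Finset.mem_union.1 h with h | h
      · exact hUx j h
      · exact hxB j h
    · intro r
      simp only [W]
      rw [Finset.card_biUnion]
      · simp only [hVcard, Finset.sum_const, Finset.card_univ, Fintype.card_fin, smul_eq_mul]
      · intro k _ k' _ hkk
        exact hVinj _ _ (fun h => hkk (by simpa using h))
    · intro r
      simp only [W]
      rw [Finset.disjoint_biUnion_right]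
      intro k _
      rw [Finset.disjoint_union_left, Finset.disjoint_union_left]
      refine ⟨⟨hUV _, hBV _⟩, ?_⟩
      rw [Finset.disjoint_left]
      intro a ha ha'
      rw [Finset.mem_image] at ha
      obtain ⟨j, _, rfl⟩ := ha
      exact hxV _ _ ha'
    · intro r r' hrr
      simp only [W]
      rw [Finset.disjoint_biUnion_left]
      intro k _
      rw [Finset.disjoint_biUnion_right]
      intro k' _
      refine hVinj _ _ (fun h => hrr ?_)
      simp only [Prod.mk.injEq] at h
      exact Prod.ext h.1 h.2.1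
    · intro u hu huB j m hux
      exact (key (j, m) u hu huB).1 hux
    · intro u hu huB j m hux huW
      refine (key (j, m) u hu huB).2.2 hux ?_
      intro k a ha
      refine huW a ?_
      simp only [W]
      exact Finset.mem_biUnion.2 ⟨k, Finset.mem_univ _, ha⟩
    · intro m
      simp only [Finset.mem_union, Finset.mem_image, Finset.mem_univ, true_and]
      constructor
      · rintro (h | h | ⟨k, h⟩)
        · exact Or.inl h
        · exact Or.inr (Or.inl h)
        · exact Or.inr (Or.inr ⟨k, h.symm⟩)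
      · rintro (h | h | ⟨k, h⟩)
        · exact Or.inl h
        · exact Or.inr (Or.inl h)
        · exact Or.inr (Or.inr ⟨k, h.symm⟩)
    · intro r
      refine (key r t ht2 htB).2.1 ?_ (htZ _ (hzZ _))
      intro k a ha
      obtain ⟨y, rfl⟩ := (memY _ _).1 ha
      exact htZ _ (hzZ _)

end

end Pool.Agent.MP_a79c01_pr
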