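import Pool.Agent.MP_a79c01_pr.H34.NoTies

/-!
# The concrete model on `ℕ → Bool` with a product measure
-/

open MeasureTheory ProbabilityTheory Filter Topology
open scoped ENNReal

namespace Pool.Agent.MP_a79c01_pr

theorem Dep.measurableSet {U : Finset ℕ} {A : Set Om} (hA : Dep U A) : MeasurableSet A := by
  have h : A = (Finset.restrict U) ⁻¹' ((Finset.restrict U) '' A) := by
    ext s
    constructor
    · intro hs
      exact ⟨s, hs, rfl⟩
    · rintro ⟨t, ht, hts⟩
      refine hA (fun i hi => ?_) ht
      exact congrFun hts ⟨i, hi⟩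
  rw [h]
  exact (Finset.measurable_restrict U) (Set.toFinite _).measurableSet

/-- The law of `s` under state `θ`. -/
noncomputable abbrev mu (F : Bool → ProbabilityMeasure Bool) (θ : Bool) : Measure Om :=
  Measure.infinitePi fun _ : ℕ => (F θ : Measure Bool)

theorem mu_inter (F : Bool → ProbabilityMeasure Bool) (θ : Bool) (U V : Finset ℕ) (A B : Set Om)
    (hA : Dep U A) (hB : Dep V B) (hUV : Disjoint U V) :
    (mu F θ).real (A ∩ B) = (mu F θ).real A * (mu F θ).real B := by
  have h1 : iIndepFun (fun (i : ℕ) (ω : Om) => ω i) (mu F θ) :=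
    iIndepFun_infinitePi (P := fun _ : ℕ => (F θ : Measure Bool)) (X := fun _ x => x)
      (fun _ => measurable_id)
  have h2 := h1.indepFun_finset U V hUV (fun i => measurable_pi_apply i)
  have hA' : A = (fun (s : Om) (i : U) => s i) ⁻¹' ((fun (s : Om) (i : U) => s i) '' A) := by
    ext s
    constructor
    · intro hs
      exact ⟨s, hs, rfl⟩
    · rintro ⟨t, ht, hts⟩
      exact hA (fun i hi => congrFun hts ⟨i, hi⟩) ht
  have hB' : B = (fun (s : Om) (i : V) => s i) ⁻¹' ((fun (s : Om) (i : V) => s i) '' B) := by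
    ext s
    constructor
    · intro hs
      exact ⟨s, hs, rfl⟩
    · rintro ⟨t, ht, hts⟩
      exact hB (fun i hi => congrFun hts ⟨i, hi⟩) ht
  have h3 := h2.measure_inter_preimage_eq_mul
    ((fun (s : Om) (i : U) => s i) '' A) ((fun (s : Om) (i : V) => s i) '' B)
    (Set.toFinite _).measurableSet (Set.toFinite _).measurableSet
  rw [← hA', ← hB'] at h3
  simp only [Measure.real, h3, ENNReal.toReal_mul]

/-- The abstract model given by two fully supported laws on `Bool`. -/
noncomputable def mkModel (F : Bool → ProbabilityMeasure Bool)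
    (hpos : ∀ θ σ, 0 < (F θ : Measure Bool).real {σ})
    (hlt : ∀ β, (F (!β) : Measure Bool).real {β} < (F β : Measure Bool).real {β}) : Model where
  w θ σ := (F θ : Measure Bool).real {σ}
  P θ A := (mu F θ).real A
  w_pos := hpos
  w_sum θ β := by
    have h : ({β} : Set Bool) ∪ {!β} = Set.univ := by
      ext x; cases x <;> cases β <;> simp
    rw [← measureReal_union (by cases β <;> simp) (MeasurableSet.singleton _), h,
      probReal_univ]
  w_lt := hlt
  P_nonneg _ _ := measureReal_nonneg
  P_univ _ := probReal_univ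
  P_coord θ i σ := by
    have h := (measurePreserving_eval_infinitePi (fun _ : ℕ => (F θ : Measure Bool)) i)
    have h2 := h.measure_preimage (MeasurableSet.singleton σ).nullMeasurableSet
    have h3 : (Function.eval i ⁻¹' {σ} : Set Om) = {s : Om | s i = σ} := rfl
    rw [h3] at h2
    simp only [Measure.real]
    rw [h2]
  P_union θ U A B _ hB hAB := measureReal_union hAB hB.measurableSet
  P_inter θ U V A B hA hB hUV := mu_inter F θ U V A B hA hB hUV

/-- Comparison of conditional expectations through set integrals. -/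
theorem condExp_le_of_setIntegral {Ω : Type*} {m m0 : MeasurableSpace Ω} {μ : Measure Ω}
    [IsFiniteMeasure μ] (hm : m ≤ m0) {f g : Ω → ℝ} (hf : Integrable f μ) (hg : Integrable g μ)
    (h : ∀ C, MeasurableSet[m] C → ∫ x in C, f x ∂μ ≤ ∫ x in C, g x ∂μ) :
    μ[f | m] ≤ᵐ[μ] μ[g | m] := by
  have h1 : μ[f | m] ≤ᵐ[μ.trim hm] μ[g | m] := by
    refine ae_le_of_forall_setIntegral_le
      (integrable_condExp.trim hm stronglyMeasurable_condExp)
      (integrable_condExp.trim hm stronglyMeasurable_condExp) ?_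
    intro s hs _
    rw [← setIntegral_trim hm stronglyMeasurable_condExp hs,
      ← setIntegral_trim hm stronglyMeasurable_condExp hs, setIntegral_condExp hm hf hs,
      setIntegral_condExp hm hg hs]
    exact h s hs
  exact ae_le_of_ae_le_trim h1

/-- A fully supported law on `Bool` with `P(true) = q`. -/
noncomputable def bern (q : ℝ) (h0 : 0 ≤ q) (h1 : q ≤ 1) : ProbabilityMeasure Bool :=
  ⟨ENNReal.ofReal q • Measure.dirac true + ENNReal.ofReal (1 - q) • Measure.dirac false, ⟨by
    simp only [Measure.coe_add, Measure.coe_smul, Pi.add_apply, Pi.smul_apply, measure_univ,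
      smul_eq_mul, mul_one]
    rw [← ENNReal.ofReal_add h0 (by linarith)]
    simp⟩⟩

theorem bern_true (q : ℝ) (h0 : 0 ≤ q) (h1 : q ≤ 1) :
    (bern q h0 h1 : Measure Bool).real {true} = q := by
  have : (bern q h0 h1 : Measure Bool) {true} = ENNReal.ofReal q := by
    simp [bern]
  rw [Measure.real, this, ENNReal.toReal_ofReal h0]

theorem bern_false (q : ℝ) (h0 : 0 ≤ q) (h1 : q ≤ 1) :
    (bern q h0 h1 : Measure Bool).real {false} = 1 - q := by
  have : (bern q h0 h1 : Measure Bool) {false} = ENNReal.ofReal (1 - q) := by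
    simp [bern]
  rw [Measure.real, this, ENNReal.toReal_ofReal (by linarith)]

theorem exists_transcendental : ∃ q : ℝ, 1 / 2 < q ∧ q < 1 ∧ Transcendental ℚ q := by
  have h1 : {x : ℝ | IsAlgebraic ℚ x}.Countable := Algebraic.countable ℚ ℝ
  have h2 : Dense {x : ℝ | IsAlgebraic ℚ x}ᶜ := h1.dense_compl ℝ
  obtain ⟨q, hq1, hq2⟩ := h2.exists_mem_open (isOpen_Ioo (a := (1 / 2 : ℝ)) (b := 1))
    ⟨3 / 4, by norm_num, by norm_num⟩
  exact ⟨q, hq2.1, hq2.2, hq1⟩

end Pool.Agent.MP_a79c01_pr
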