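import Pool.Agent.MP_a79c01_pr.H34.Concrete

/-!
# Asymptotic learning in a deterministic network with bounded signals (MP_a79c01_pr)

The state is an element of `Bool` (`true` is the state `1`, `false` the state `0`), and so are the
actions.  A profile is a sequence `a`, where `a n s` is the action of agent `n` when the sequence of
all private signals is `s`; `Rational` says that `a` is a Bayesian rational profile of the network,
whatever the rule used to break ties.  The theorem gives a bounded signal distribution and a
deterministic network in which every Bayesian rational profile learns asymptotically.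
-/

open MeasureTheory ProbabilityTheory Filter Topology
open scoped ENNReal

namespace Pool.Agent.MP_a79c01_pr.DeterministicLearning

open Pool.Agent.MP_a79c01_pr (Om Dep Model Net act mu mkModel)

section Definitions

variable {S : Type} [MeasurableSpace S]

/-- The joint law of the state `θ` (first coordinate, uniform on `{false, true}`) and of the
sequence of the private signals (second coordinate): given `θ`, the signals are i.i.d. with law
`F θ`. -/
noncomputable def law (F : Bool → ProbabilityMeasure S) : Measure (Bool × (ℕ → S)) :=
  (2⁻¹ : ℝ≥0∞) • (Measure.infinitePi fun _ : ℕ => (F false : Measure S)).map (Prod.mk false) +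
    (2⁻¹ : ℝ≥0∞) • (Measure.infinitePi fun _ : ℕ => (F true : Measure S)).map (Prod.mk true)

/-- The private belief `P(θ = 1 | s_n)` of agent `n`. -/
noncomputable def privateBelief (F : Bool → ProbabilityMeasure S) (n : ℕ) :
    Bool × (ℕ → S) → ℝ :=
  (law F)[Set.indicator {ω | ω.1 = true} (fun _ => (1 : ℝ)) |
    MeasurableSpace.comap (fun ω : Bool × (ℕ → S) => ω.2 n) inferInstance]

/-- Bounded signals: for some `β > 0` all private beliefs lie in `[β, 1 - β]` almost surely. -/
def BoundedSignals (F : Bool → ProbabilityMeasure S) : Prop :=
  ∃ β : ℝ, 0 < β ∧ ∀ n, ∀ᵐ ω ∂(law F), privateBelief F n ω ∈ Set.Icc β (1 - β)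

/-- The information of agent `n` in the network `N` under the profile `a`: the σ-algebra generated
by her private signal and the actions of the agents in her neighbourhood `N n`. -/
abbrev info (N : ℕ → Finset ℕ) (a : ℕ → (ℕ → S) → Bool) (n : ℕ) :
    MeasurableSpace (Bool × (ℕ → S)) :=
  MeasurableSpace.comap (fun ω : Bool × (ℕ → S) => (ω.2 n, fun m : N n => a m ω.2)) inferInstance

/-- The payoff of an agent whose action is `b s` at the signal sequence `s`: it is `1` if her
action is equal to the state and `0` otherwise. -/
def payoff (b : (ℕ → S) → Bool) (ω : Bool × (ℕ → S)) : ℝ := if b ω.2 = ω.1 then 1 else 0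

/-- `a` is a Bayesian rational profile: the action of each agent is a function of her information,
and given this information its posterior expected payoff is at least that of each fixed
action `b`. -/
def Rational (F : Bool → ProbabilityMeasure S) (N : ℕ → Finset ℕ)
    (a : ℕ → (ℕ → S) → Bool) : Prop :=
  ∀ n, Measurable[info N a n] (fun ω : Bool × (ℕ → S) => a n ω.2) ∧
    ∀ b : Bool, (law F)[payoff (fun _ => b) | info N a n] ≤ᵐ[law F]
      (law F)[payoff (a n) | info N a n]

end Definitions

section Law

variable (F : Bool → ProbabilityMeasure Bool)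

theorem law_apply {E : Set (Bool × Om)} (hE : MeasurableSet E) :
    law F E = 2⁻¹ * mu F false (Prod.mk false ⁻¹' E) + 2⁻¹ * mu F true (Prod.mk true ⁻¹' E) := by
  unfold law
  rw [Measure.coe_add, Pi.add_apply, Measure.smul_apply, Measure.smul_apply,
    Measure.map_apply measurable_prodMk_left hE, Measure.map_apply measurable_prodMk_left hE]
  rfl

instance : IsProbabilityMeasure (law F) := ⟨by
  rw [law_apply F MeasurableSet.univ]
  simp only [Set.preimage_univ, measure_univ, mul_one]
  exact ENNReal.inv_two_add_inv_two⟩

theorem law_real {E : Set (Bool × Om)} (hE : MeasurableSet E) :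
    (law F).real E = ((mu F false).real (Prod.mk false ⁻¹' E) +
      (mu F true).real (Prod.mk true ⁻¹' E)) / 2 := by
  rw [Measure.real, law_apply F hE, ENNReal.toReal_add (by finiteness) (by finiteness),
    ENNReal.toReal_mul, ENNReal.toReal_mul]
  simp only [Measure.real, ENNReal.toReal_inv, ENNReal.toReal_ofNat]
  ring

/-- A set of pairs described by one event for each state. -/
theorem measurableSet_pair {A : Bool → Set Om} (hA : ∀ θ, MeasurableSet (A θ)) :
    MeasurableSet {ω : Bool × Om | ω.2 ∈ A ω.1} := by
  have : {ω : Bool × Om | ω.2 ∈ A ω.1} = ({false} ×ˢ A false) ∪ ({true} ×ˢ A true) := by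
    ext ⟨θ, s⟩
    cases θ <;> simp
  rw [this]
  exact ((MeasurableSet.singleton _).prod (hA _)).union ((MeasurableSet.singleton _).prod (hA _))

theorem law_real_pair {A : Bool → Set Om} (hA : ∀ θ, MeasurableSet (A θ)) :
    (law F).real {ω : Bool × Om | ω.2 ∈ A ω.1} =
      ((mu F false).real (A false) + (mu F true).real (A true)) / 2 := by
  rw [law_real F (measurableSet_pair hA)]
  rfl

theorem payoff_eq (d : Om → Bool) :
    payoff d = Set.indicator {ω : Bool × Om | d ω.2 = ω.1} (fun _ => (1 : ℝ)) := by
  funext ω
  unfold payoff
  by_cases h : d ω.2 = ω.1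
  · rw [if_pos h, Set.indicator_of_mem (show ω ∈ {ω : Bool × Om | d ω.2 = ω.1} from h)]
  · rw [if_neg h, Set.indicator_of_notMem (show ω ∉ {ω : Bool × Om | d ω.2 = ω.1} from h)]

theorem measurableSet_match {d : Om → Bool} (hd : Measurable d) :
    MeasurableSet {ω : Bool × Om | d ω.2 = ω.1} :=
  measurableSet_pair (A := fun θ => {s | d s = θ})
    (fun θ => hd (MeasurableSet.singleton θ))

theorem integrable_payoff {d : Om → Bool} (hd : Measurable d) :
    Integrable (payoff d) (law F) := by
  rw [payoff_eq]
  exact (integrable_const _).indicator (measurableSet_match hd)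

theorem setIntegral_payoff {d : Om → Bool} (hd : Measurable d) {C : Set Om}
    (hC : MeasurableSet C) :
    ∫ ω in {ω : Bool × Om | ω.2 ∈ C}, payoff d ω ∂(law F) =
      ((mu F false).real (C ∩ {s | d s = false}) + (mu F true).real (C ∩ {s | d s = true})) / 2 := by
  rw [payoff_eq, setIntegral_indicator (measurableSet_match hd), setIntegral_const, smul_eq_mul,
    mul_one]
  have h : {ω : Bool × Om | ω.2 ∈ C} ∩ {ω : Bool × Om | d ω.2 = ω.1} =
      {ω : Bool × Om | ω.2 ∈ (fun θ => C ∩ {s | d s = θ}) ω.1} := by
    ext ω; rfl
  rw [h, law_real_pair F (A := fun θ => C ∩ {s | d s = θ})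
    (fun θ => hC.inter (hd (MeasurableSet.singleton θ)))]

end Law

section Main

variable {F : Bool → ProbabilityMeasure Bool}
  (hpos : ∀ θ σ, 0 < (F θ : Measure Bool).real {σ})
  (hlt : ∀ β, (F (!β) : Measure Bool).real {β} < (F β : Measure Bool).real {β})

include hpos in
theorem bounded : BoundedSignals F := by
  classical
  obtain ⟨c, hc0, hc⟩ : ∃ c : ℝ, 0 < c ∧ ∀ θ σ, c ≤ (F θ : Measure Bool).real {σ} := by
    refine ⟨min (min ((F false : Measure Bool).real {false}) ((F false : Measure Bool).real {true}))
      (min ((F true : Measure Bool).real {false}) ((F true : Measure Bool).real {true})),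
      lt_min (lt_min (hpos _ _) (hpos _ _)) (lt_min (hpos _ _) (hpos _ _)), ?_⟩
    intro θ σ
    cases θ <;> cases σ
    · exact (min_le_left _ _).trans (min_le_left _ _)
    · exact (min_le_left _ _).trans (min_le_right _ _)
    · exact (min_le_right _ _).trans (min_le_left _ _)
    · exact (min_le_right _ _).trans (min_le_right _ _)
  refine ⟨c / 2, by positivity, fun n => ?_⟩
  have hm : MeasurableSpace.comap (fun ω : Bool × Om => ω.2 n) inferInstance ≤
      (inferInstance : MeasurableSpace (Bool × Om)) :=
    ((measurable_pi_apply n).comp measurable_snd).comap_le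
  have hmeas1 : MeasurableSet {ω : Bool × Om | ω.1 = true} :=
    measurable_fst (MeasurableSet.singleton true)
  have hint : Integrable (Set.indicator {ω : Bool × Om | ω.1 = true} (fun _ => (1 : ℝ)))
      (law F) := (integrable_const _).indicator hmeas1
  -- facts on a measurable set of the information
  have key : ∀ C : Set (Bool × Om),
      MeasurableSet[MeasurableSpace.comap (fun ω : Bool × Om => ω.2 n) inferInstance] C →
      ∃ D : Set Bool, (law F).real C =
        ((F false : Measure Bool).real D + (F true : Measure Bool).real D) / 2 ∧
        ∫ ω in C, Set.indicator {ω : Bool × Om | ω.1 = true} (fun _ => (1 : ℝ)) ω ∂(law F) =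
          (F true : Measure Bool).real D / 2 := by
    rintro C ⟨D, _, rfl⟩
    refine ⟨D, ?_, ?_⟩
    · have h1 : (fun ω : Bool × Om => ω.2 n) ⁻¹' D =
          {ω : Bool × Om | ω.2 ∈ (fun _ : Bool => (Function.eval n ⁻¹' D : Set Om)) ω.1} := rfl
      have hD : MeasurableSet D := (Set.toFinite D).measurableSet
      rw [h1, law_real_pair F (fun _ => (measurable_pi_apply n) hD)]
      have h2 : ∀ θ, (mu F θ).real (Function.eval n ⁻¹' D : Set Om) =
          (F θ : Measure Bool).real D := by
        intro θ
        have h := (measurePreserving_eval_infinitePi (fun _ : ℕ => (F θ : Measure Bool)) n)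
        have h3 := h.measure_preimage hD.nullMeasurableSet
        simp only [Measure.real]
        rw [h3]
      rw [h2, h2]
    · have hD : MeasurableSet D := (Set.toFinite D).measurableSet
      rw [setIntegral_indicator hmeas1, setIntegral_const, smul_eq_mul, mul_one]
      have h1 : (fun ω : Bool × Om => ω.2 n) ⁻¹' D ∩ {ω : Bool × Om | ω.1 = true} =
          {ω : Bool × Om | ω.2 ∈ (fun θ : Bool => if θ = true then
            (Function.eval n ⁻¹' D : Set Om) else ∅) ω.1} := by
        ext ⟨θ, s⟩
        cases θ <;> simp
      rw [h1, law_real_pair F (A := fun θ : Bool => if θ = true then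
            (Function.eval n ⁻¹' D : Set Om) else ∅)]
      · have h := (measurePreserving_eval_infinitePi (fun _ : ℕ => (F true : Measure Bool)) n)
        have h3 := h.measure_preimage hD.nullMeasurableSet
        simp only [if_true, Bool.false_eq_true, if_false, measureReal_empty, zero_add]
        simp only [Measure.real]
        rw [h3]
      · intro θ
        split_ifs
        · exact (measurable_pi_apply n) hD
        · exact MeasurableSet.empty
  have hDfacts : ∀ D : Set Bool, D = ∅ ∨ ∀ θ, c ≤ (F θ : Measure Bool).real D := by
    intro D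
    rcases D.eq_empty_or_nonempty with h | ⟨σ, hσ⟩
    · exact Or.inl h
    · right
      intro θ
      exact (hc θ σ).trans (measureReal_mono (by simpa using hσ))
  have hle1 : ∀ θ (D : Set Bool), (F θ : Measure Bool).real D ≤ 1 := fun θ D =>
    measureReal_le_one
  have low := Pool.Agent.MP_a79c01_pr.condExp_le_of_setIntegral (μ := law F) hm
    (integrable_const (c / 2)) hint (by
      intro C hC
      obtain ⟨D, h1, h2⟩ := key C hC
      rw [h2, setIntegral_const, smul_eq_mul, h1]
      rcases hDfacts D with h | h
      · simp [h]
      · have e1 := h true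
        have e2 := hle1 false D
        have e3 := hle1 true D
        nlinarith)
  have up := Pool.Agent.MP_a79c01_pr.condExp_le_of_setIntegral (μ := law F) hm
    hint (integrable_const (1 - c / 2)) (by
      intro C hC
      obtain ⟨D, h1, h2⟩ := key C hC
      rw [h2, setIntegral_const, smul_eq_mul, h1]
      rcases hDfacts D with h | h
      · simp [h]
      · have e1 := h false
        have e2 := hle1 false D
        have e3 := hle1 true D
        nlinarith)
  rw [condExp_const hm] at low up
  filter_upwards [low, up] with ω h1 h2
  exact ⟨h1, h2⟩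

/-- Measurability of the canonical actions. -/
theorem measurable_act (M : Model) (A : Net) (n : ℕ) : Measurable (act M A n) := by
  refine measurable_to_bool ?_
  exact (Pool.Agent.MP_a79c01_pr.dep_act (M := M) (A := A) n true).measurableSet

/-- The map generating the information of agent `n`. -/
def infoMap (N : ℕ → Finset ℕ) (a : ℕ → Om → Bool) (n : ℕ) (s : Om) : Bool × (N n → Bool) :=
  (s n, fun m => a m s)

theorem measurable_infoMap (N : ℕ → Finset ℕ) (a : ℕ → Om → Bool) (n : ℕ)
    (h : ∀ m ∈ N n, Measurable (a m)) : Measurable (infoMap N a n) :=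
  (measurable_pi_apply n).prodMk (measurable_pi_lambda _ (fun m => h m m.2))

theorem info_eq (N : ℕ → Finset ℕ) (a : ℕ → Om → Bool) (n : ℕ) :
    info N a n = MeasurableSpace.comap (fun ω : Bool × Om => infoMap N a n ω.2) inferInstance := rfl

theorem info_le (N : ℕ → Finset ℕ) (a : ℕ → Om → Bool) (n : ℕ)
    (h : ∀ m ∈ N n, Measurable (a m)) :
    info N a n ≤ (inferInstance : MeasurableSpace (Bool × Om)) := by
  rw [info_eq]
  exact ((measurable_infoMap N a n h).comp measurable_snd).comap_le

theorem rational_act (A : Net) : Rational F A.N (act (mkModel F hpos hlt) A) := by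
  classical
  intro n
  set M := mkModel F hpos hlt with hM
  have hle := info_le A.N (act M A) n (fun m _ => measurable_act M A m)
  constructor
  · -- a function of the information
    intro D _
    refine ⟨(infoMap A.N (act M A) n) '' (act M A n ⁻¹' D), (Set.toFinite _).measurableSet, ?_⟩
    ext ⟨θ, s⟩
    constructor
    · rintro ⟨t, ht, hts⟩
      have h1 : s ∈ Pool.Agent.MP_a79c01_pr.info M A n t := by
        refine ⟨(congrArg Prod.fst hts).symm, fun m hm => ?_⟩
        exact (congrFun (congrArg Prod.snd hts) ⟨m, hm⟩).symm
      have h2 := Pool.Agent.MP_a79c01_pr.act_congr_info h1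
      show act M A n s ∈ D
      rw [h2]; exact ht
    · intro h
      exact ⟨s, h, rfl⟩
  · intro b
    refine Pool.Agent.MP_a79c01_pr.condExp_le_of_setIntegral hle
      (integrable_payoff F measurable_const) (integrable_payoff F (measurable_act M A n)) ?_
    rintro C ⟨D, hD, rfl⟩
    set C' : Set Om := infoMap A.N (act M A) n ⁻¹' D with hC'
    have hC'm : MeasurableSet C' :=
      measurable_infoMap A.N (act M A) n (fun m _ => measurable_act M A m) hD
    have hC : (fun ω : Bool × Om => (ω.2 n, fun m : A.N n => act M A m ω.2)) ⁻¹' D =
        {ω : Bool × Om | ω.2 ∈ C'} := rfl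
    rw [hC, setIntegral_payoff F measurable_const hC'm,
      setIntegral_payoff F (measurable_act M A n) hC'm]
    -- the comparison
    have hdC : Dep (Finset.range (n + 1)) C' := by
      intro s t hst hs
      have h1 : infoMap A.N (act M A) n t = infoMap A.N (act M A) n s := by
        refine Prod.ext (hst n (by simp)).symm ?_
        funext m
        have hm := A.valid n m m.2
        exact (Pool.Agent.MP_a79c01_pr.act_dep (M := M) (A := A) m s t (fun i hi => hst i (by
          rw [Finset.mem_range] at hi ⊢; omega))).symm
      show infoMap A.N (act M A) n t ∈ D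
      rw [h1]; exact hs
    have hda := fun σ => Pool.Agent.MP_a79c01_pr.dep_act (M := M) (A := A) n σ
    have hdE : ∀ σ, Dep (Finset.range (n + 1)) (C' ∩ {s | act M A n s = σ}) := fun σ =>
      (hdC.inter (hda σ)).mono (by simp)
    have hcmp : M.P b (C' ∩ {s | act M A n s = !b}) ≤ M.P (!b) (C' ∩ {s | act M A n s = !b}) := by
      refine Pool.Agent.MP_a79c01_pr.compare_saturated (A := A) (k := n) ?_ (hdE _) ?_
      · rintro s ⟨hs1, hs2⟩ t ht
        refine ⟨?_, ?_⟩
        · have h1 : infoMap A.N (act M A) n t = infoMap A.N (act M A) n s := by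
            refine Prod.ext ht.1 ?_
            funext m
            exact ht.2 m m.2
          show infoMap A.N (act M A) n t ∈ D
          rw [h1]; exact hs1
        · show act M A n t = !b
          rw [Pool.Agent.MP_a79c01_pr.act_congr_info ht]; exact hs2
      · rintro s ⟨_, hs2⟩
        by_contra hlt'
        push Not at hlt'
        have h5 : act M A n s = b := Pool.Agent.MP_a79c01_pr.act_eq_of_lt hlt'
        have hs2' : act M A n s = !b := hs2
        rw [h5] at hs2'
        cases b <;> simp at hs2'
    have hsplit : M.P b C' = M.P b (C' ∩ {s | act M A n s = b}) +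
        M.P b (C' ∩ {s | act M A n s = !b}) := by
      rw [← M.P_union b _ _ _ (hdE _) (hdE _)]
      · congr 1
        ext s
        cases hs : act M A n s <;> cases b <;> simp [hs]
      · rw [Set.disjoint_left]
        rintro s ⟨_, hs⟩ ⟨_, hs'⟩
        have hs1 : act M A n s = b := hs
        have hs2 : act M A n s = !b := hs'
        rw [hs1] at hs2
        cases b <;> simp at hs2
    have hfin : M.P b C' ≤ M.P b (C' ∩ {s | act M A n s = b}) +
        M.P (!b) (C' ∩ {s | act M A n s = !b}) := by linarith
    have hP : ∀ θ E, M.P θ E = (mu F θ).real E := fun _ _ => rfl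
    cases b
    · simp only [Set.ofPred_true, Set.inter_univ, Bool.false_eq_true, Bool.not_false,
        hP] at hfin ⊢
      have e1 : {s : Om | False} = ∅ := by ext; simp
      simp only [e1, Set.inter_empty, measureReal_empty, add_zero]
      linarith
    · simp only [Set.ofPred_true, Set.inter_univ, Bool.true_eq_false, Bool.not_true,
        hP] at hfin ⊢
      have e1 : {s : Om | False} = ∅ := by ext; simp
      simp only [e1, Set.inter_empty, measureReal_empty, zero_add]
      linarith

/-- Without ties, every rational profile is the canonical one. -/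
theorem rational_unique (A : Net) (h13 : (F false : Measure Bool).real {true} = 1 / 3)
    (htr : Transcendental ℚ ((F true : Measure Bool).real {true}))
    {a : ℕ → Om → Bool} (ha : Rational F A.N a) :
    ∀ n, a n = act (mkModel F hpos hlt) A n := by
  classical
  intro n
  set M := mkModel F hpos hlt with hM
  induction n using Nat.strong_induction_on with
  | _ n ih =>
    have hmeas : ∀ m ∈ A.N n, Measurable (a m) := fun m hm => by
      rw [ih m (A.valid n m hm)]; exact measurable_act M A m
    have hle := info_le A.N a n hmeas
    obtain ⟨h1, h2⟩ := ha n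
    have hmap : ∀ s t, infoMap A.N a n t = infoMap A.N a n s ↔
        t ∈ Pool.Agent.MP_a79c01_pr.info M A n s := by
      intro s t
      constructor
      · intro h
        refine ⟨congrArg Prod.fst h, fun m hm => ?_⟩
        have := congrFun (congrArg Prod.snd h) ⟨m, hm⟩
        simp only [infoMap] at this
        rwa [ih m (A.valid n m hm)] at this
      · rintro ⟨h, h'⟩
        refine Prod.ext h ?_
        funext m
        simp only [infoMap]
        rw [ih m (A.valid n m m.2)]
        exact h' m m.2
    -- `a n` is constant on information cells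
    have hconst : ∀ s t, infoMap A.N a n t = infoMap A.N a n s → a n t = a n s := by
      intro s t hst
      obtain ⟨D, _, hD⟩ := h1 (MeasurableSet.singleton (a n s))
      have hs : ((true, s) : Bool × Om) ∈ (fun ω : Bool × Om => a n ω.2) ⁻¹' {a n s} := rfl
      rw [← hD] at hs
      have ht : ((true, t) : Bool × Om) ∈ (fun ω : Bool × Om =>
          (ω.2 n, fun m : A.N n => a m ω.2)) ⁻¹' D := by
        show infoMap A.N a n t ∈ D
        rw [hst]
        exact hs
      rw [hD] at ht
      exact ht
    have hmeasn : Measurable (a n) := by
      have h3 : Measurable (fun ω : Bool × Om => a n ω.2) := h1.mono hle le_rfl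
      exact h3.comp (measurable_prodMk_left (x := true))
    funext s
    symm
    apply Pool.Agent.MP_a79c01_pr.act_eq_of_lt
    set x := a n s with hx
    set C' : Set Om := Pool.Agent.MP_a79c01_pr.info M A n s with hC'
    have hdC : Dep (Finset.range (n + 1)) C' := Pool.Agent.MP_a79c01_pr.dep_info n s
    have hC'm : MeasurableSet C' := hdC.measurableSet
    have hCset : {ω : Bool × Om | ω.2 ∈ C'} =
        (fun ω : Bool × Om => (ω.2 n, fun m : A.N n => a m ω.2)) ⁻¹' {infoMap A.N a n s} := by
      ext ⟨θ, t⟩
      show t ∈ C' ↔ infoMap A.N a n t = infoMap A.N a n s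
      rw [hmap]
    have hCmeas : MeasurableSet[info A.N a n] {ω : Bool × Om | ω.2 ∈ C'} := by
      rw [hCset]
      exact ⟨_, (Set.toFinite _).measurableSet, rfl⟩
    -- integrate the rationality inequality
    have h3 : ∫ ω in {ω : Bool × Om | ω.2 ∈ C'}, payoff (fun _ => !x) ω ∂(law F) ≤
        ∫ ω in {ω : Bool × Om | ω.2 ∈ C'}, payoff (a n) ω ∂(law F) := by
      rw [← setIntegral_condExp hle (integrable_payoff F measurable_const) hCmeas,
        ← setIntegral_condExp hle (integrable_payoff F hmeasn) hCmeas]
      exact setIntegral_mono_ae integrable_condExp.integrableOn integrable_condExp.integrableOn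
        (h2 (!x))
    rw [setIntegral_payoff F measurable_const hC'm, setIntegral_payoff F hmeasn hC'm] at h3
    have hcx : ∀ t ∈ C', a n t = x := fun t ht => hconst s t ((hmap s t).2 ht)
    have hP : ∀ θ E, M.P θ E = (mu F θ).real E := fun _ _ => rfl
    have e1 : C' ∩ {t | a n t = x} = C' := by
      ext t
      constructor
      · exact fun h => h.1
      · exact fun h => ⟨h, hcx t h⟩
    have e2 : C' ∩ {t | a n t = !x} = ∅ := by
      ext t
      simp only [Set.mem_inter_iff, Set.mem_ofPred_eq, Set.mem_empty_iff_false, iff_false, not_and]
      intro h h'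
      rw [hcx t h] at h'
      cases hxx : x <;> rw [hxx] at h' <;> simp at h'
    have hle' : M.P (!x) C' ≤ M.P x C' := by
      have e3 : {s : Om | False} = ∅ := by ext; simp
      rw [hP, hP]
      cases hxx : x
      · rw [hxx] at e1 e2 h3
        simp only [Bool.not_false, Bool.true_eq_false] at e1 e2 h3 ⊢
        rw [e1, e2] at h3
        simp only [e3, Set.inter_empty, measureReal_empty, Set.ofPred_true, Set.inter_univ] at h3
        linarith
      · rw [hxx] at e1 e2 h3
        simp only [Bool.not_true, Bool.false_eq_true] at e1 e2 h3 ⊢
        rw [e1, e2] at h3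
        simp only [e3, Set.inter_empty, measureReal_empty, Set.ofPred_true, Set.inter_univ] at h3
        linarith
    have hne : M.P false C' ≠ M.P true C' := by
      refine Pool.Agent.MP_a79c01_pr.no_ties M h13 htr hdC (s := s)
        (t := fun i => if i = n then !(s n) else s i) ⟨rfl, fun _ _ => rfl⟩ ?_
      intro h
      have := h.1
      simp at this
    have hne' : M.P (!x) C' ≠ M.P x C' := by
      cases x
      · simpa using hne.symm
      · simpa using hne
    exact lt_of_le_of_ne hle' hne'

/-- The success probability in terms of the error. -/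
theorem success_eq (A : Net) (n : ℕ) :
    (law F).real {ω : Bool × Om | act (mkModel F hpos hlt) A n ω.2 = ω.1} =
      1 - Pool.Agent.MP_a79c01_pr.Err (mkModel F hpos hlt) A n := by
  set M := mkModel F hpos hlt with hM
  have h1 : (law F).real {ω : Bool × Om | act M A n ω.2 = ω.1} =
      ((mu F false).real {s | act M A n s = false} +
        (mu F true).real {s | act M A n s = true}) / 2 :=
    law_real_pair F (A := fun θ => {s | act M A n s = θ})
      (fun θ => measurable_act M A n (MeasurableSet.singleton θ))
  have h2 : ∀ θ σ, (mu F θ).real {s | act M A n s = σ} =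
      1 - M.P θ {s | act M A n s = !σ} := by
    intro θ σ
    rw [← M.P_compl (Pool.Agent.MP_a79c01_pr.dep_act n (!σ))]
    have : {s | act M A n s = !σ}ᶜ = {s | act M A n s = σ} := by
      ext s
      simp only [Set.mem_compl_iff, Set.mem_ofPred_eq]
      cases act M A n s <;> cases σ <;> simp
    rw [this]
    rfl
  rw [h1, h2, h2]
  unfold Pool.Agent.MP_a79c01_pr.Err
  simp only [Bool.not_false, Bool.not_true]
  ring

end Main

/-- **Asymptotic learning in a deterministic network with bounded signals.**  There are a signal
distribution with bounded signals, whose two laws are distinct and mutually absolutely continuous,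
and a deterministic network in which a Bayesian rational profile exists and in which, for every
Bayesian rational profile, the probability that agent `n` picks the right action tends to `1`. -/
theorem result :
    ∃ F : Bool → ProbabilityMeasure Bool,
      F false ≠ F true ∧
      (F false : Measure Bool) ≪ (F true : Measure Bool) ∧
      (F true : Measure Bool) ≪ (F false : Measure Bool) ∧
      BoundedSignals F ∧
      ∃ N : ℕ → Finset ℕ, (∀ n, ∀ m ∈ N n, m < n) ∧
        (∃ a, Rational F N a) ∧
        ∀ a, Rational F N a →
          Tendsto (fun n => law F {ω | a n ω.2 = ω.1}) atTop (𝓝 1) := by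
  classical
  obtain ⟨q, hq1, hq2, hq⟩ := Pool.Agent.MP_a79c01_pr.exists_transcendental
  let F : Bool → ProbabilityMeasure Bool := fun θ =>
    if θ = true then Pool.Agent.MP_a79c01_pr.bern q (by linarith) hq2.le
    else Pool.Agent.MP_a79c01_pr.bern (1 / 3) (by norm_num) (by norm_num)
  have f1 : (F false : Measure Bool).real {true} = 1 / 3 :=
    Pool.Agent.MP_a79c01_pr.bern_true (1 / 3) (by norm_num) (by norm_num)
  have f2 : (F false : Measure Bool).real {false} = 1 - 1 / 3 :=
    Pool.Agent.MP_a79c01_pr.bern_false (1 / 3) (by norm_num) (by norm_num)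
  have f3 : (F true : Measure Bool).real {true} = q :=
    Pool.Agent.MP_a79c01_pr.bern_true q (by linarith) hq2.le
  have f4 : (F true : Measure Bool).real {false} = 1 - q :=
    Pool.Agent.MP_a79c01_pr.bern_false q (by linarith) hq2.le
  have hpos : ∀ θ σ, 0 < (F θ : Measure Bool).real {σ} := by
    intro θ σ
    cases θ <;> cases σ
    · rw [f2]; norm_num
    · rw [f1]; norm_num
    · rw [f4]; linarith
    · rw [f3]; linarith
  have hlt : ∀ β, (F (!β) : Measure Bool).real {β} < (F β : Measure Bool).real {β} := by
    intro β
    cases β
    · rw [Bool.not_false, f2, f4]; linarith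
    · rw [Bool.not_true, f1, f3]; linarith
  have hac : ∀ θ θ', (F θ : Measure Bool) ≪ (F θ' : Measure Bool) := by
    intro θ θ' D hD
    have hDe : D = ∅ := by
      by_contra h
      obtain ⟨σ, hσ⟩ := Set.nonempty_iff_ne_empty.2 h
      have h1 : (F θ' : Measure Bool) {σ} = 0 :=
        measure_mono_null (by simpa using hσ) hD
      have h2 := hpos θ' σ
      rw [Measure.real, h1] at h2
      simp at h2
    rw [hDe]; simp
  refine ⟨F, ?_, hac _ _, hac _ _, bounded hpos, ?_⟩
  · intro h
    have h1 := hlt true
    rw [Bool.not_true, h] at h1
    exact lt_irrefl _ h1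
  · obtain ⟨A, hA⟩ := Pool.Agent.MP_a79c01_pr.exists_net (mkModel F hpos hlt)
    refine ⟨A.N, A.valid, ⟨_, rational_act hpos hlt A⟩, fun a ha => ?_⟩
    have huniq := rational_unique hpos hlt A f1 (by rw [f3]; exact hq) ha
    have h1 : ∀ n, law F {ω : Bool × Om | a n ω.2 = ω.1} =
        ENNReal.ofReal (1 - Pool.Agent.MP_a79c01_pr.Err (mkModel F hpos hlt) A n) := by
      intro n
      rw [← success_eq hpos hlt A n, huniq n, ofReal_measureReal]
    simp only [h1]
    have h2 : Tendsto (fun n => 1 - Pool.Agent.MP_a79c01_pr.Err (mkModel F hpos hlt) A n) atTop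
        (𝓝 1) := by
      simpa using hA.const_sub 1
    have h3 := (ENNReal.continuous_ofReal.tendsto 1).comp h2
    rw [ENNReal.ofReal_one] at h3
    exact h3

end Pool.Agent.MP_a79c01_pr.DeterministicLearning
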