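import Pool.Agent.MP_a79c01_pr.H34.Net

/-!
# The gadget: static analysis
-/

open Finset

namespace Pool.Agent.MP_a79c01_pr

/-- The number of coordinates in `V` at which `t` equals `β`. -/
def cnt (β : Bool) (V : Finset ℕ) (t : Om) : ℕ := (V.filter (fun i => t i = β)).card

theorem cnt_le (β : Bool) (V : Finset ℕ) (t : Om) : cnt β V t ≤ V.card := card_filter_le _ _

theorem cnt_insert {β : Bool} {V : Finset ℕ} {a : ℕ} (ha : a ∉ V) (t : Om) :
    cnt β (insert a V) t = cnt β V t + if t a = β then 1 else 0 := by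
  unfold cnt
  rw [Finset.filter_insert]
  split_ifs with h
  · rw [Finset.card_insert_of_notMem (by simp [ha])]
  · rfl

theorem cnt_congr {β : Bool} {V : Finset ℕ} {s t : Om} (h : ∀ i ∈ V, s i = t i) :
    cnt β V s = cnt β V t := by
  unfold cnt
  congr 1
  refine Finset.filter_congr (fun i hi => ?_)
  rw [h i hi]

theorem cnt_eq_zero {β : Bool} {V : Finset ℕ} {t : Om} :
    cnt β V t = 0 ↔ ∀ i ∈ V, t i = !β := by
  unfold cnt
  rw [Finset.card_eq_zero, Finset.filter_eq_empty_iff]
  refine forall₂_congr (fun i _ => ?_)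
  cases t i <;> cases β <;> simp

theorem cnt_eq_card {β : Bool} {V : Finset ℕ} {t : Om} (h : ∀ i ∈ V, t i = β) :
    cnt β V t = V.card := by
  unfold cnt
  rw [Finset.filter_true_of_mem h]

theorem prod_w (M : Model) (θ β : Bool) (V : Finset ℕ) (t : Om) :
    ∏ i ∈ V, M.w θ (t i) = M.w θ β ^ (cnt β V t) * M.w θ (!β) ^ (V.card - cnt β V t) := by
  classical
  rw [← Finset.prod_filter_mul_prod_filter_not V (fun i => t i = β)]
  congr 1
  · rw [Finset.prod_congr rfl (g := fun _ => M.w θ β)]
    · rw [Finset.prod_const]; rfl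
    · intro i hi
      rw [(Finset.mem_filter.1 hi).2]
  · rw [Finset.prod_congr rfl (g := fun _ => M.w θ (!β))]
    · rw [Finset.prod_const]
      congr 1
      have := Finset.card_filter_add_card_filter_not (s := V) (fun i => t i = β)
      unfold cnt
      omega
    · intro i hi
      have h := (Finset.mem_filter.1 hi).2
      have : t i = !β := by cases h1 : t i <;> cases β <;> simp_all
      rw [this]

namespace Model

variable (M : Model)

/-- Likelihood ratio of `!β` against `β` of a `β`-signal. -/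
noncomputable def r0 (β : Bool) : ℝ := M.w (!β) β / M.w β β

/-- Likelihood ratio of `!β` against `β` of a `!β`-signal. -/
noncomputable def r1 (β : Bool) : ℝ := M.w (!β) (!β) / M.w β (!β)

theorem r0_pos (β : Bool) : 0 < M.r0 β := div_pos (M.w_pos _ _) (M.w_pos _ _)

theorem r1_pos (β : Bool) : 0 < M.r1 β := div_pos (M.w_pos _ _) (M.w_pos _ _)

theorem r0_lt_one (β : Bool) : M.r0 β < 1 := by
  unfold r0
  rw [div_lt_one (M.w_pos _ _)]
  exact M.w_lt β

theorem one_lt_r1 (β : Bool) : 1 < M.r1 β := by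
  unfold r1
  rw [one_lt_div (M.w_pos _ _)]
  have := M.w_lt (!β)
  simpa using this

theorem w_r0 (β : Bool) : M.w (!β) β = M.r0 β * M.w β β := by
  unfold r0
  rw [div_mul_cancel₀ _ (M.w_pos _ _).ne']

theorem w_r1 (β : Bool) : M.w (!β) (!β) = M.r1 β * M.w β (!β) := by
  unfold r1
  rw [div_mul_cancel₀ _ (M.w_pos _ _).ne']

theorem P_atom_ratio (β : Bool) (V : Finset ℕ) (t : Om) :
    M.P (!β) (atom V t) =
      M.r0 β ^ (cnt β V t) * M.r1 β ^ (V.card - cnt β V t) * M.P β (atom V t) := by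
  rw [M.P_atom, M.P_atom, prod_w M (!β) β, prod_w M β β, M.w_r0, M.w_r1, mul_pow, mul_pow]
  ring

/-- `r0 ^ a * r1 ^ (n - a)` is decreasing in `a`. -/
theorem ratio_anti (β : Bool) {n a b : ℕ} (hab : a ≤ b) :
    M.r0 β ^ b * M.r1 β ^ (n - b) ≤ M.r0 β ^ a * M.r1 β ^ (n - a) := by
  have h1 : M.r0 β ^ b ≤ M.r0 β ^ a :=
    pow_le_pow_of_le_one (M.r0_pos β).le (M.r0_lt_one β).le hab
  have h2 : M.r1 β ^ (n - b) ≤ M.r1 β ^ (n - a) :=
    pow_le_pow_right₀ (M.one_lt_r1 β).le (by omega)
  exact mul_le_mul h1 h2 (pow_nonneg (M.r1_pos β).le _) (pow_nonneg (M.r0_pos β).le _)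

/-- An event depending on `V` and containing no `!β`-constant pattern. -/
theorem up_of_cnt (β : Bool) {V : Finset ℕ} {ny : ℕ} (hV : V.card = ny + 1) {E : Set Om}
    (hE : Dep V E) (h : ∀ t ∈ E, 1 ≤ cnt β V t) : M.P (!β) E ≤ M.r1 β ^ ny * M.P β E := by
  classical
  let φ : Om → (V → Bool) := fun s i => s i
  have hφ : ∀ v, Dep V {t | φ t = v} := by
    intro v s t hst hs
    simp only [Set.mem_ofPred_eq] at hs ⊢
    rw [← hs]
    funext i
    exact (hst i i.2).symm
  rw [M.P_partition (!β) φ hφ hE, M.P_partition β φ hφ hE, Finset.mul_sum]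
  refine Finset.sum_le_sum (fun v _ => ?_)
  by_cases hne : (E ∩ {t | φ t = v}).Nonempty
  · obtain ⟨s, hsE, hs⟩ := hne
    have : E ∩ {t | φ t = v} = atom V s := by
      ext t
      constructor
      · rintro ⟨_, ht⟩ i hi
        simp only [Set.mem_ofPred_eq] at hs ht
        exact congrFun (ht.trans hs.symm) ⟨i, hi⟩
      · intro ht
        refine ⟨hE (fun i hi => (ht i hi).symm) hsE, ?_⟩
        simp only [Set.mem_ofPred_eq] at hs ⊢
        rw [← hs]
        funext i
        exact ht i i.2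
    rw [this, M.P_atom_ratio]
    refine mul_le_mul_of_nonneg_right ?_ (M.P_nonneg _ _)
    refine (M.ratio_anti β (h s hsE)).trans ?_
    rw [hV, pow_one, Nat.add_sub_cancel]
    have := mul_le_mul_of_nonneg_right (M.r0_lt_one β).le (pow_nonneg (M.r1_pos β).le ny)
    linarith
  · rw [Set.not_nonempty_iff_eq_empty] at hne
    rw [hne, M.P_empty, M.P_empty]
    simp

end Model

section

variable {M : Model} {A : Net}

/-- Agent `z` plays her own signal on `H`. -/
def Fresh (M : Model) (A : Net) (H : Set Om) (z : ℕ) : Prop := ∀ t ∈ H, act M A z t = t z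

theorem cell_fresh {Q S : Finset ℕ} {s t : Om} (hS : ∀ z ∈ S, Fresh M A (cell M A Q s) z)
    (ht : t ∈ cell M A Q s) : cell M A (Q ∪ S) t = cell M A Q s ∩ atom S t := by
  ext u
  constructor
  · intro hu
    have huH : u ∈ cell M A Q s := by
      rw [← cell_congr ht]
      exact fun j hj => hu j (mem_union_left _ hj)
    refine ⟨huH, fun i hi => ?_⟩
    have h1 := hu i (mem_union_right _ hi)
    rwa [hS i hi u huH, hS i hi t ht] at h1
  · rintro ⟨hu, hu'⟩ j hj
    rcases mem_union.1 hj with hj | hj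
    · rw [hu j hj, ht j hj]
    · rw [hS j hj u hu, hS j hj t ht]
      exact hu' j hj

theorem info_fresh {Q S : Finset ℕ} {s t : Om} {k : ℕ} (hk : A.N k = Q ∪ S)
    (hS : ∀ z ∈ S, Fresh M A (cell M A Q s) z)
    (ht : t ∈ cell M A Q s) : info M A k t = cell M A Q s ∩ atom (insert k S) t := by
  have h1 : info M A k t = {u | u k = t k} ∩ cell M A (Q ∪ S) t := by
    ext u
    simp only [info, cell, hk]
    rfl
  rw [h1, cell_fresh hS ht]
  ext u
  simp only [atom, Set.mem_inter_iff, Set.mem_ofPred_eq, Finset.forall_mem_insert]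
  tauto

/-- Replicating an inconclusive observer gives a fresh agent. -/
theorem fresh_of_inc {O : Finset ℕ} {s : Om} {z : ℕ} (hz : A.N z = O) (hO : O ⊆ range z)
    (hI : Inc M A O s) : Fresh M A (cell M A O s) z := by
  intro t ht
  apply act_eq_of_lt
  have h1 : info M A z t = cell M A O s ∩ atom {z} t := by
    have := info_fresh (M := M) (A := A) (Q := O) (S := ∅) (s := s) (t := t) (k := z)
      (by simp [hz]) (by simp) ht
    simpa using this
  have h2 : ∀ θ, M.P θ (info M A z t) = M.P θ (cell M A O s) * M.w θ (t z) := by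
    intro θ
    rw [h1, M.P_inter θ (range z) {z} _ _ (dep_cell hO s) (dep_atom _ _) (by simp), M.P_atom]
    simp
  rw [h2, h2]
  have := hI (t z)
  linarith

/-- The decision of an agent who sees `Q` and fresh agents `S`. -/
theorem act_fresh {Q S U : Finset ℕ} {s t : Om} {k : ℕ} (hk : A.N k = Q ∪ S)
    (hS : ∀ z ∈ S, Fresh M A (cell M A Q s) z) (hU : Dep U (cell M A Q s))
    (hdisj : Disjoint U (insert k S)) {β : Bool} {R : ℝ}
    (hR : M.P (!β) (cell M A Q s) = R * M.P β (cell M A Q s))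
    (ht : t ∈ cell M A Q s) :
    (1 < R * (M.r0 β ^ (cnt β (insert k S) t) * M.r1 β ^ ((insert k S).card - cnt β (insert k S) t))
      → act M A k t = !β) ∧
    (R * (M.r0 β ^ (cnt β (insert k S) t) * M.r1 β ^ ((insert k S).card - cnt β (insert k S) t)) < 1
      → act M A k t = β) := by
  have h1 := info_fresh hk hS ht
  have h2 : ∀ θ, M.P θ (info M A k t) = M.P θ (cell M A Q s) * M.P θ (atom (insert k S) t) := by
    intro θ
    rw [h1, M.P_inter θ U (insert k S) _ _ hU (dep_atom _ _) hdisj]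
  have h3 : M.P (!β) (info M A k t) =
      R * (M.r0 β ^ (cnt β (insert k S) t) *
        M.r1 β ^ ((insert k S).card - cnt β (insert k S) t)) * M.P β (info M A k t) := by
    rw [h2, h2, M.P_atom_ratio, hR]; ring
  have h4 := info_pos (M := M) (A := A) β k t
  constructor
  · intro h
    apply act_eq_of_lt
    rw [Bool.not_not, h3]
    nlinarith
  · intro h
    apply act_eq_of_lt
    rw [h3]
    nlinarith

/-- Decision of a `c`-agent. -/
theorem act_c {Q S U : Finset ℕ} {s t : Om} {k : ℕ} (hk : A.N k = Q ∪ S)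
    (hS : ∀ z ∈ S, Fresh M A (cell M A Q s) z) (hU : Dep U (cell M A Q s))
    (hdisj : Disjoint U (insert k S)) {β : Bool} {R : ℝ} (hR0 : 0 < R)
    (hR : M.P (!β) (cell M A Q s) = R * M.P β (cell M A Q s))
    (ht : t ∈ cell M A Q s) {ny : ℕ} (hcard : (insert k S).card = ny + 2)
    (C1 : 1 < R * M.r1 β ^ (ny + 1) * M.r0 β) (C2 : R * M.r1 β ^ ny * M.r0 β ^ 2 < 1) :
    act M A k t = !β ↔ cnt β (insert k S) t ≤ 1 := by
  obtain ⟨h1, h2⟩ := act_fresh hk hS hU hdisj hR ht
  rw [hcard] at h1 h2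
  constructor
  · intro h
    by_contra hc
    push Not at hc
    have h3 := M.ratio_anti β (n := ny + 2) (a := 2) hc
    have h4 : act M A k t = β := by
      apply h2
      have h5 := mul_le_mul_of_nonneg_left h3 hR0.le
      rw [Nat.add_sub_cancel] at h5
      calc _ ≤ _ := h5
        _ = R * M.r1 β ^ ny * M.r0 β ^ 2 := by ring
        _ < 1 := C2
    rw [h] at h4
    cases β <;> simp at h4
  · intro hc
    apply h1
    have h3 := M.ratio_anti β (n := ny + 2) (b := 1) hc
    have h5 := mul_le_mul_of_nonneg_left h3 hR0.le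
    calc 1 < R * M.r1 β ^ (ny + 1) * M.r0 β := C1
      _ = R * (M.r0 β ^ 1 * M.r1 β ^ (ny + 2 - 1)) := by
          have : ny + 2 - 1 = ny + 1 := by omega
          rw [this]; ring
      _ ≤ _ := h5

end

end Pool.Agent.MP_a79c01_pr
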