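import Pool.Agent.MP_a79c01_pr.H34.Basic

/-!
# Networks, Bayesian actions, cells
-/

open Finset

namespace Pool.Agent.MP_a79c01_pr

/-- A deterministic network. -/
structure Net where
  N : ℕ → Finset ℕ
  valid : ∀ k, ∀ m ∈ N k, m < k

/-- The Bayesian action of agent `k` at the signal sequence `s`. -/
noncomputable def act (M : Model) (A : Net) (k : ℕ) (s : Om) : Bool :=
  open Classical in
  decide (M.P false {t : Om | t k = s k ∧ ∀ m (_ : m ∈ A.N k), act M A m t = act M A m s} <
    M.P true {t : Om | t k = s k ∧ ∀ m (_ : m ∈ A.N k), act M A m t = act M A m s})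
termination_by k
decreasing_by all_goals (apply A.valid; assumption)

/-- The observation cell of `s` for an observer of the actions of the agents in `O`. -/
def cell (M : Model) (A : Net) (O : Finset ℕ) (s : Om) : Set Om :=
  {t | ∀ j ∈ O, act M A j t = act M A j s}

/-- The information cell of agent `k`. -/
def info (M : Model) (A : Net) (k : ℕ) (s : Om) : Set Om :=
  {t | t k = s k ∧ ∀ m ∈ A.N k, act M A m t = act M A m s}

section

variable {M : Model} {A : Net}

theorem act_def (k : ℕ) (s : Om) : act M A k s =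
    open Classical in decide (M.P false (info M A k s) < M.P true (info M A k s)) := by
  rw [act]
  rfl

theorem act_eq_of_lt {k : ℕ} {s : Om} {β : Bool}
    (h : M.P (!β) (info M A k s) < M.P β (info M A k s)) : act M A k s = β := by
  rw [act_def]
  cases β with
  | true => simpa using h
  | false =>
    simp only [decide_eq_false_iff_not, not_lt]
    exact le_of_lt (by simpa using h)

theorem info_congr {k : ℕ} {s t : Om} (h : t ∈ info M A k s) : info M A k t = info M A k s := by
  ext u
  constructor
  · rintro ⟨h1, h2⟩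
    exact ⟨h1.trans h.1, fun m hm => (h2 m hm).trans (h.2 m hm)⟩
  · rintro ⟨h1, h2⟩
    exact ⟨h1.trans h.1.symm, fun m hm => (h2 m hm).trans (h.2 m hm).symm⟩

theorem act_congr_info {k : ℕ} {s t : Om} (h : t ∈ info M A k s) : act M A k t = act M A k s := by
  rw [act_def, act_def, info_congr h]

theorem cell_congr {O : Finset ℕ} {s t : Om} (h : t ∈ cell M A O s) :
    cell M A O t = cell M A O s := by
  ext u
  constructor
  · intro h1 j hj
    exact (h1 j hj).trans (h j hj)
  · intro h1 j hj
    exact (h1 j hj).trans (h j hj).symm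

theorem mem_cell_self (O : Finset ℕ) (s : Om) : s ∈ cell M A O s := fun _ _ => rfl

theorem mem_info_self (k : ℕ) (s : Om) : s ∈ info M A k s := ⟨rfl, fun _ _ => rfl⟩

theorem cell_anti {O O' : Finset ℕ} (h : O ⊆ O') (s : Om) : cell M A O' s ⊆ cell M A O s :=
  fun _ ht j hj => ht j (h hj)

theorem act_dep (k : ℕ) : ∀ s t : Om, (∀ i ∈ range (k + 1), s i = t i) →
    act M A k s = act M A k t := by
  induction k using Nat.strong_induction_on with
  | _ k ih =>
    intro s t hst
    have h : s ∈ info M A k t := by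
      refine ⟨hst k (by simp), fun m hm => ?_⟩
      have hmk := A.valid k m hm
      exact ih m hmk s t (fun i hi => hst i (by
        rw [mem_range] at hi ⊢; omega))
    exact act_congr_info h

theorem dep_act (k : ℕ) (σ : Bool) : Dep (range (k + 1)) {t | act M A k t = σ} := by
  intro s t hst hs
  have := act_dep (M := M) (A := A) k s t hst
  simp only [Set.mem_ofPred_eq] at hs ⊢
  rw [← this, hs]

theorem dep_cell {O : Finset ℕ} {n : ℕ} (hO : O ⊆ range n) (x : Om) :
    Dep (range n) (cell M A O x) := by
  intro s t hst hs j hj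
  have h1 := act_dep (M := M) (A := A) j s t (fun i hi => hst i (by
    have := hO hj
    rw [mem_range] at this hi ⊢; omega))
  rw [← h1]
  exact hs j hj

theorem dep_info (k : ℕ) (x : Om) : Dep (range (k + 1)) (info M A k x) := by
  intro s t hst hs
  refine ⟨?_, fun m hm => ?_⟩
  · rw [← hst k (by simp)]; exact hs.1
  · have h1 := act_dep (M := M) (A := A) m s t (fun i hi => hst i (by
      have := A.valid k m hm
      rw [mem_range] at hi ⊢; omega))
    rw [← h1]
    exact hs.2 m hm

theorem info_pos (θ : Bool) (k : ℕ) (x : Om) : 0 < M.P θ (info M A k x) :=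
  M.P_pos (dep_info k x) (mem_info_self k x)

/-- `B` extends `A` beyond the first `n` agents, up to the first `n'` agents. -/
def Ext (A : Net) (n : ℕ) (B : Net) (n' : ℕ) : Prop := n ≤ n' ∧ ∀ k < n, B.N k = A.N k

theorem Ext.refl (A : Net) (n : ℕ) : Ext A n A n := ⟨le_rfl, fun _ _ => rfl⟩

theorem Ext.trans {A B C : Net} {n m l : ℕ} (h : Ext A n B m) (h' : Ext B m C l) : Ext A n C l :=
  ⟨h.1.trans h'.1, fun k hk => (h'.2 k (lt_of_lt_of_le hk h.1)).trans (h.2 k hk)⟩

theorem Ext.act_eq {A B : Net} {n n' : ℕ} (h : Ext A n B n') :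
    ∀ k < n, ∀ s, act M B k s = act M A k s := by
  intro k
  induction k using Nat.strong_induction_on with
  | _ k ih =>
    intro hk s
    have : info M B k s = info M A k s := by
      ext t
      constructor
      · rintro ⟨h1, h2⟩
        refine ⟨h1, fun m hm => ?_⟩
        have hmk := A.valid k m hm
        rw [← ih m hmk (hmk.trans hk), ← ih m hmk (hmk.trans hk)]
        exact h2 m (by rw [h.2 k hk]; exact hm)
      · rintro ⟨h1, h2⟩
        refine ⟨h1, fun m hm => ?_⟩
        rw [h.2 k hk] at hm
        have hmk := A.valid k m hm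
        rw [ih m hmk (hmk.trans hk), ih m hmk (hmk.trans hk)]
        exact h2 m hm
    rw [act_def, act_def, this]

theorem Ext.cell_eq {A B : Net} {n n' : ℕ} (h : Ext A n B n') {O : Finset ℕ} (hO : O ⊆ range n)
    (s : Om) : cell M B O s = cell M A O s := by
  ext t
  constructor
  · intro ht j hj
    rw [← h.act_eq j (by simpa using hO hj), ← h.act_eq j (by simpa using hO hj)]
    exact ht j hj
  · intro ht j hj
    rw [h.act_eq j (by simpa using hO hj), h.act_eq j (by simpa using hO hj)]
    exact ht j hj

/-- The observer of `O` is not swayed: her own signal would decide, whatever it is. -/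
def Inc (M : Model) (A : Net) (O : Finset ℕ) (s : Om) : Prop :=
  ∀ β : Bool, M.w (!β) β * M.P (!β) (cell M A O s) < M.w β β * M.P β (cell M A O s)

theorem Inc.congr {O : Finset ℕ} {s t : Om} (h : Inc M A O s) (ht : t ∈ cell M A O s) :
    Inc M A O t := by
  intro β
  rw [cell_congr ht]
  exact h β

/-- The observer of `O` can guess the state with error probability at most `ε` in both states. -/
def Acc (M : Model) (A : Net) (O : Finset ℕ) (ε : ℝ) : Prop :=
  ∃ d : Om → Bool, (∀ s t, t ∈ cell M A O s → d t = d s) ∧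
    ∀ θ, M.P θ {s | d s = !θ} ≤ ε

theorem Acc.mono_set {O O' : Finset ℕ} {ε : ℝ} (h : Acc M A O ε) (hO : O ⊆ O') :
    Acc M A O' ε := by
  obtain ⟨d, h1, h2⟩ := h
  exact ⟨d, fun s t ht => h1 s t (cell_anti hO s ht), h2⟩

theorem Acc.mono_err {O : Finset ℕ} {ε ε' : ℝ} (h : Acc M A O ε) (hε : ε ≤ ε') :
    Acc M A O ε' := by
  obtain ⟨d, h1, h2⟩ := h
  exact ⟨d, h1, fun θ => (h2 θ).trans hε⟩

theorem Acc.ext {A B : Net} {n n' : ℕ} (h : Ext A n B n') {O : Finset ℕ} (hO : O ⊆ range n)
    {ε : ℝ} (hA : Acc M A O ε) : Acc M B O ε := by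
  obtain ⟨d, h1, h2⟩ := hA
  exact ⟨d, fun s t ht => h1 s t (by rwa [h.cell_eq hO] at ht), h2⟩

theorem Inc.ext {A B : Net} {n n' : ℕ} (h : Ext A n B n') {O : Finset ℕ} (hO : O ⊆ range n)
    {s : Om} (hA : Inc M A O s) : Inc M B O s := by
  intro β
  rw [h.cell_eq hO]
  exact hA β

/-- The (average) error probability of agent `k`. -/
noncomputable def Err (M : Model) (A : Net) (k : ℕ) : ℝ :=
  (M.P false {s | act M A k s = true} + M.P true {s | act M A k s = false}) / 2

theorem Ext.err_eq {A B : Net} {n n' : ℕ} (h : Ext A n B n') {k : ℕ} (hk : k < n) :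
    Err M B k = Err M A k := by
  unfold Err
  have : ∀ σ, {s | act M B k s = σ} = {s | act M A k s = σ} := by
    intro σ
    ext s
    simp only [Set.mem_ofPred_eq]
    rw [h.act_eq k hk]
  rw [this, this]

/-- If on every information cell inside the saturated event `E` state `b` is at least as likely
as state `a`, then the same holds on `E`. -/
theorem compare_saturated {k : ℕ} {E : Set Om} (hE : ∀ s ∈ E, info M A k s ⊆ E)
    (hd : Dep (range (k + 1)) E) {a b : Bool}
    (h : ∀ s ∈ E, M.P a (info M A k s) ≤ M.P b (info M A k s)) : M.P a E ≤ M.P b E := by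
  classical
  let φ : Om → (Bool × (A.N k → Bool)) := fun s => (s k, fun m => act M A m s)
  have hφ : ∀ v, Dep (range (k + 1)) {t | φ t = v} := by
    intro v s t hst hs
    have h1 : φ t = φ s := by
      refine Prod.ext (hst k (by simp)).symm ?_
      funext m
      have hm := A.valid k m m.2
      exact (act_dep (M := M) (A := A) m s t (fun i hi => hst i (by
        rw [mem_range] at hi ⊢; omega))).symm
    simp only [Set.mem_ofPred_eq] at hs ⊢
    rw [h1, hs]
  rw [M.P_partition a φ hφ hd, M.P_partition b φ hφ hd]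
  refine Finset.sum_le_sum (fun v _ => ?_)
  by_cases hne : (E ∩ {t | φ t = v}).Nonempty
  · obtain ⟨s, hsE, hs⟩ := hne
    have : E ∩ {t | φ t = v} = info M A k s := by
      ext t
      constructor
      · rintro ⟨_, ht⟩
        simp only [Set.mem_ofPred_eq] at hs ht
        have h1 : φ t = φ s := ht.trans hs.symm
        refine ⟨congrArg Prod.fst h1, fun m hm => ?_⟩
        exact congrFun (congrArg Prod.snd h1) ⟨m, hm⟩
      · intro ht
        refine ⟨hE s hsE ht, ?_⟩
        simp only [Set.mem_ofPred_eq] at hs ⊢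
        rw [← hs]
        refine Prod.ext ht.1 ?_
        funext m
        exact ht.2 m m.2
    rw [this]
    exact h s hsE
  · rw [Set.not_nonempty_iff_eq_empty] at hne
    rw [hne, M.P_empty, M.P_empty]

/-- Bayes optimality: an agent who observes at least `O` errs with probability at most `ε` if the
observer of `O` can guess with error at most `ε`. -/
theorem err_le {k : ℕ} {O : Finset ℕ} {ε : ℝ} (hA : Acc M A O ε) (hO : O ⊆ A.N k) :
    Err M A k ≤ ε := by
  classical
  obtain ⟨d, h1, h2⟩ := hA
  have hinfo : ∀ s t, t ∈ info M A k s → d t = d s := fun s t ht =>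
    h1 s t (fun j hj => ht.2 j (hO hj))
  have hdd : ∀ σ, Dep (range (k + 1)) {s | d s = σ} := by
    intro σ s t hst hs
    have : s ∈ info M A k s := mem_info_self k s
    have h3 : t ∈ info M A k s := dep_info k s hst this
    simp only [Set.mem_ofPred_eq] at hs ⊢
    rw [hinfo s t h3, hs]
  have hda : ∀ σ, Dep (range (k + 1)) {s | act M A k s = σ} := fun σ => dep_act k σ
  have hdE : ∀ σ τ, Dep (range (k + 1)) ({s | act M A k s = σ} ∩ {s | d s = τ}) :=
    fun σ τ => ((hda σ).inter (hdd τ)).mono (by simp)
  -- compare on `act = β`, `d = !β`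
  have hcmp : ∀ β : Bool, M.P (!β) ({s | act M A k s = β} ∩ {s | d s = !β}) ≤
      M.P β ({s | act M A k s = β} ∩ {s | d s = !β}) := by
    intro β
    refine compare_saturated (A := A) (k := k) ?_ (hdE _ _) ?_
    · rintro s ⟨hs1, hs2⟩ t ht
      simp only [Set.mem_ofPred_eq] at hs1 hs2
      refine ⟨?_, ?_⟩
      · simp only [Set.mem_ofPred_eq]; rw [act_congr_info ht, hs1]
      · simp only [Set.mem_ofPred_eq]; rw [hinfo s t ht, hs2]
    · rintro s ⟨hs1, _⟩
      by_contra hlt
      push Not at hlt
      have h5 : act M A k s = !β := act_eq_of_lt (β := !β) (by simpa using hlt)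
      simp only [Set.mem_ofPred_eq] at hs1
      rw [hs1] at h5
      cases β <;> simp at h5
  have hsplit : ∀ (θ σ : Bool), M.P θ {s | act M A k s = σ} =
      M.P θ ({s | act M A k s = σ} ∩ {s | d s = true}) +
      M.P θ ({s | act M A k s = σ} ∩ {s | d s = false}) := by
    intro θ σ
    rw [← M.P_union θ _ _ _ (hdE _ _) (hdE _ _)]
    · congr 1
      ext s
      cases hds : d s <;> simp [hds]
    · rw [Set.disjoint_left]
      rintro s ⟨_, hs⟩ ⟨_, hs'⟩
      simp only [Set.mem_ofPred_eq] at hs hs'
      rw [hs] at hs'; simp at hs'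
  have hsplit' : ∀ (θ τ : Bool), M.P θ {s | d s = τ} =
      M.P θ ({s | act M A k s = true} ∩ {s | d s = τ}) +
      M.P θ ({s | act M A k s = false} ∩ {s | d s = τ}) := by
    intro θ τ
    rw [← M.P_union θ _ _ _ (hdE _ _) (hdE _ _)]
    · congr 1
      ext s
      cases hds : act M A k s <;> simp [hds]
    · rw [Set.disjoint_left]
      rintro s ⟨hs, _⟩ ⟨hs', _⟩
      simp only [Set.mem_ofPred_eq] at hs hs'
      rw [hs] at hs'; simp at hs'
  have c1 := hcmp true
  have c2 := hcmp false
  have e1 := h2 true
  have e2 := h2 false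
  simp only [Bool.not_true, Bool.not_false] at c1 c2 e1 e2
  rw [hsplit'] at e1 e2
  unfold Err
  rw [hsplit, hsplit]
  linarith

end

end Pool.Agent.MP_a79c01_pr
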