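import Pool.Agent.MP_a79c01_pr.H34.Stage

/-!
# No ties for a transcendental signal probability
-/

open Finset Polynomial

namespace Pool.Agent.MP_a79c01_pr

theorem poly_of_dep (M : Model) {U : Finset ℕ} {A : Set Om} (hA : Dep U A) :
    ∃ f : ℚ[X], (∀ θ, M.P θ A = aeval (M.w θ true) f) ∧ (f.eval 0 = 0 ∨ f.eval 0 = 1) := by
  classical
  let φ : Om → (U → Bool) := fun s i => s i
  have hφ : ∀ v, Dep U {t | φ t = v} := by
    intro v s t hst hs
    simp only [Set.mem_ofPred_eq] at hs ⊢
    rw [← hs]
    funext i
    exact (hst i i.2).symm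
  let g : (U → Bool) → ℚ[X] := fun v =>
    if ∃ s ∈ A, φ s = v then ∏ i, (if v i = true then X else 1 - X) else 0
  refine ⟨∑ v, g v, ?_, ?_⟩
  · intro θ
    rw [M.P_partition θ φ hφ hA, map_sum]
    refine Finset.sum_congr rfl (fun v _ => ?_)
    by_cases hv : ∃ s ∈ A, φ s = v
    · obtain ⟨s, hsA, hs⟩ := hv
      have h1 : A ∩ {t | φ t = v} = atom U s := by
        ext t
        constructor
        · rintro ⟨_, ht⟩ i hi
          simp only [Set.mem_ofPred_eq] at ht
          exact congrFun (ht.trans hs.symm) ⟨i, hi⟩
        · intro ht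
          refine ⟨hA (fun i hi => (ht i hi).symm) hsA, ?_⟩
          simp only [Set.mem_ofPred_eq]
          rw [← hs]
          funext i
          exact ht i i.2
      have h2 : g v = ∏ i, (if v i = true then X else 1 - X) := by
        simp only [g]; rw [if_pos ⟨s, hsA, hs⟩]
      rw [h1, h2, M.P_atom, map_prod, ← Finset.prod_coe_sort U (fun i => M.w θ (s i))]
      refine Finset.prod_congr rfl (fun i _ => ?_)
      have h3 : v i = s i := by rw [← hs]
      rw [h3]
      cases hsi : s i
      · have := M.w_sum θ true
        simp only [Bool.not_true] at this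
        simp
        linarith
      · simp
    · have h2 : g v = 0 := by
        simp only [g]; rw [if_neg hv]
      have h1 : A ∩ {t | φ t = v} = ∅ := by
        ext t
        simp only [Set.mem_inter_iff, Set.mem_ofPred_eq, Set.mem_empty_iff_false, iff_false,
          not_and]
        intro h h'
        exact hv ⟨t, h, h'⟩
      rw [h1, h2, M.P_empty, map_zero]
  · have h0 : (∑ v, g v).eval 0 = (g (fun _ => false)).eval 0 := by
      rw [eval_finsetSum]
      refine Finset.sum_eq_single (fun _ => false) ?_ ?_
      · intro v _ hv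
        have hex : ∃ i, v i = true := by
          by_contra h
          push Not at h
          apply hv
          funext i
          have := h i
          simpa using this
        obtain ⟨i, hi⟩ := hex
        by_cases hexv : ∃ s ∈ A, φ s = v
        · simp only [g]
          rw [if_pos hexv, eval_prod]
          refine Finset.prod_eq_zero (Finset.mem_univ i) ?_
          rw [if_pos hi, eval_X]
        · simp only [g]
          rw [if_neg hexv, eval_zero]
      · intro h
        exact absurd (Finset.mem_univ _) h
    rw [h0]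
    by_cases hex : ∃ s ∈ A, φ s = fun _ => false
    · right
      simp only [g]
      rw [if_pos hex, eval_prod]
      simp
    · left
      simp only [g]
      rw [if_neg hex, eval_zero]

theorem no_ties (M : Model) (h13 : M.w false true = 1 / 3)
    (htr : Transcendental ℚ (M.w true true)) {U : Finset ℕ} {A : Set Om} (hA : Dep U A)
    {s t : Om} (hs : s ∈ A) (ht : t ∉ A) : M.P false A ≠ M.P true A := by
  intro heq
  obtain ⟨f, hf, hf0⟩ := poly_of_dep M hA
  have h1 : M.P false A = ((f.eval (1 / 3 : ℚ) : ℚ) : ℝ) := by
    rw [hf false, h13]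
    have : ((1 / 3 : ℝ)) = algebraMap ℚ ℝ (1 / 3 : ℚ) := by norm_num
    rw [this, aeval_algebraMap_apply]
    simp
  have h2 : aeval (M.w true true) (f - C (f.eval (1 / 3 : ℚ))) = 0 := by
    rw [map_sub, ← hf true, ← heq, h1, aeval_C]
    simp
  have h3 : f - C (f.eval (1 / 3 : ℚ)) = 0 := by
    by_contra hne
    exact htr ⟨_, hne, h2⟩
  have h4 : f = C (f.eval (1 / 3 : ℚ)) := sub_eq_zero.1 h3
  have h5 : f.eval 0 = f.eval (1 / 3 : ℚ) := by
    conv_lhs => rw [h4]
    simp
  have hpos : 0 < M.P true A := M.P_pos hA hs
  have hpos' : 0 < M.P true Aᶜ := M.P_pos hA.compl (x := t) ht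
  rw [M.P_compl hA] at hpos'
  rw [← heq, h1, ← h5] at hpos hpos'
  rcases hf0 with h | h
  · rw [h] at hpos; simp at hpos
  · rw [h] at hpos'; simp at hpos'

end Pool.Agent.MP_a79c01_pr
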