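import Pool.Agent.MP_a79c01_pr.H34.TUnit

/-!
# The observer of the gadget and the choice of the parameters
-/

open Finset

namespace Pool.Agent.MP_a79c01_pr

section

variable {M : Model} {A : Net}

theorem observer {Q U B O : Finset ℕ} {s : Om} {J nn L b : ℕ} {x : Fin J → ℕ}
    {T : Fin J × Fin nn → ℕ} {W : Fin J × Fin nn → Finset ℕ} {β : Bool}
    (hfB : ∀ z ∈ B, Fresh M A (cell M A Q s) z)
    (hU : Dep U (cell M A Q s))
    (hdB : Disjoint U B)
    (hdx : ∀ j, x j ∉ U ∪ B) (hxinj : Function.Injective x)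
    (hWcard : ∀ p, (W p).card = L)
    (hdW : ∀ p, Disjoint (U ∪ B ∪ univ.image x) (W p))
    (hdWW : ∀ p q, p ≠ q → Disjoint (W p) (W q))
    (hBcard : B.card = b)
    (h1 : ∀ t ∈ cell M A Q s, (∀ z ∈ B, t z = β) → ∀ j m, t (x j) = (!β) →
      act M A (T (j, m)) t = β)
    (h2 : ∀ t ∈ cell M A Q s, (∀ z ∈ B, t z = β) → ∀ j m, t (x j) = β →
      (∀ i ∈ W (j, m), t i = !β) → act M A (T (j, m)) t = !β)
    (hO : ∀ m, m ∈ O ↔ m ∈ Q ∨ m ∈ B ∨ ∃ p, m = T p)
    (N1 : M.w (!β) β * (M.P (!β) (cell M A Q s) * M.w (!β) β ^ b *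
        (M.w (!β) (!β) + (1 - M.w (!β) (!β) ^ L) ^ nn) ^ J) <
      M.w β β * (M.P β (cell M A Q s) * M.w β β ^ b * M.w β (!β) ^ J))
    (N2 : M.w β (!β) * (M.P β (cell M A Q s) * M.w β β ^ b *
        (M.w β (!β) + (1 - M.w β (!β) ^ L) ^ nn) ^ J) <
      M.w (!β) (!β) * (M.P (!β) (cell M A Q s) * M.w (!β) β ^ b * M.w (!β) (!β) ^ J))
    {t : Om} (ht : t ∈ cell M A Q s) (htB : ∀ z ∈ B, t z = β)
    (htT : ∀ p, act M A (T p) t = β) : Inc M A O t := by
  classical
  set H := cell M A Q s with hH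
  obtain ⟨n, hn⟩ := Finset.exists_nat_subset_range O
  let X : Fin J → Set Om := fun j => {u | u (x j) = !β}
  let G : Fin J × Fin nn → Set Om := fun p => (atom (W p) (fun _ => !β))ᶜ
  let F : Fin J → Set Om := fun j => X j ∪ {u | ∀ m ∈ (univ : Finset (Fin nn)), u ∈ G (j, m)}
  have hX : ∀ j, Dep {x j} (X j) := fun j => Dep.coord _ _
  have hG : ∀ p, Dep (W p) (G p) := fun p => (dep_atom _ _).compl
  have hG2 : ∀ j, Dep (univ.biUnion fun m => W (j, m))
      {u | ∀ m ∈ (univ : Finset (Fin nn)), u ∈ G (j, m)} := fun j =>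
    Model.dep_family univ (fun m => W (j, m)) (fun m => G (j, m)) (fun m => hG (j, m))
  have hF : ∀ j, Dep ({x j} ∪ univ.biUnion fun m => W (j, m)) (F j) := fun j =>
    (hX j).union (hG2 j)
  have hDcell : Dep (range n) (cell M A O t) := dep_cell hn t
  have hXall : Dep (univ.biUnion fun j => ({x j} : Finset ℕ))
      {u | ∀ j ∈ (univ : Finset (Fin J)), u ∈ X j} :=
    Model.dep_family univ (fun j => {x j}) X hX
  have hFall : Dep (univ.biUnion fun j => ({x j} ∪ univ.biUnion fun m => W (j, m)))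
      {u | ∀ j ∈ (univ : Finset (Fin J)), u ∈ F j} :=
    Model.dep_family univ _ F hF
  -- disjointness
  have hxW : ∀ j p, x j ∉ W p := fun j p hx =>
    Finset.disjoint_left.1 (hdW p) (Finset.mem_union_right _
      (Finset.mem_image_of_mem x (Finset.mem_univ j))) hx
  have hdX : ∀ j j', j ≠ j' → Disjoint ({x j} : Finset ℕ) {x j'} := by
    intro j j' hjj
    rw [Finset.disjoint_singleton]
    exact fun h => hjj (hxinj h)
  have hdF : ∀ j j', j ≠ j' → Disjoint ({x j} ∪ univ.biUnion fun m => W (j, m))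
      ({x j'} ∪ univ.biUnion fun m => W (j', m)) := by
    intro j j' hjj
    rw [Finset.disjoint_union_left, Finset.disjoint_union_right, Finset.disjoint_union_right]
    refine ⟨⟨hdX j j' hjj, ?_⟩, ?_, ?_⟩
    · rw [Finset.disjoint_singleton_left, Finset.mem_biUnion]
      rintro ⟨m, _, hm⟩
      exact hxW _ _ hm
    · rw [Finset.disjoint_singleton_right, Finset.mem_biUnion]
      rintro ⟨m, _, hm⟩
      exact hxW _ _ hm
    · rw [Finset.disjoint_biUnion_left]
      intro m _
      rw [Finset.disjoint_biUnion_right]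
      intro m' _
      refine hdWW _ _ ?_
      intro h
      exact hjj (congrArg Prod.fst h)
  have hUB1 : Disjoint U (B ∪ univ.biUnion fun j => ({x j} : Finset ℕ)) := by
    rw [Finset.disjoint_union_right, Finset.disjoint_biUnion_right]
    refine ⟨hdB, fun j _ => ?_⟩
    rw [Finset.disjoint_singleton_right]
    exact fun h => hdx j (Finset.mem_union_left _ h)
  have hUB2 : Disjoint B (univ.biUnion fun j => ({x j} : Finset ℕ)) := by
    rw [Finset.disjoint_biUnion_right]
    intro j _
    rw [Finset.disjoint_singleton_right]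
    exact fun h => hdx j (Finset.mem_union_right _ h)
  have hdUW : ∀ p, Disjoint U (W p) := fun p =>
    (Finset.disjoint_union_left.1 (Finset.disjoint_union_left.1 (hdW p)).1).1
  have hdBW : ∀ p, Disjoint B (W p) := fun p =>
    (Finset.disjoint_union_left.1 (Finset.disjoint_union_left.1 (hdW p)).1).2
  have hUB4 : Disjoint B (univ.biUnion fun j => ({x j} ∪ univ.biUnion fun m => W (j, m))) := by
    rw [Finset.disjoint_biUnion_right]
    intro j _
    rw [Finset.disjoint_union_right, Finset.disjoint_singleton_right,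
      Finset.disjoint_biUnion_right]
    exact ⟨fun h => hdx j (Finset.mem_union_right _ h), fun m _ => hdBW _⟩
  have hUB3 : Disjoint U (B ∪ univ.biUnion fun j => ({x j} ∪ univ.biUnion fun m => W (j, m))) := by
    rw [Finset.disjoint_union_right, Finset.disjoint_biUnion_right]
    refine ⟨hdB, fun j _ => ?_⟩
    rw [Finset.disjoint_union_right, Finset.disjoint_singleton_right,
      Finset.disjoint_biUnion_right]
    exact ⟨fun h => hdx j (Finset.mem_union_left _ h), fun m _ => hdUW _⟩
  -- probability of `B = β`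
  have hatomB : ∀ θ, M.P θ (atom B t) = M.w θ β ^ b := by
    intro θ
    rw [M.P_atom, Finset.prod_congr rfl (g := fun _ => M.w θ β) (fun i hi => by rw [htB i hi]),
      Finset.prod_const, hBcard]
  -- lower bound
  have hlow : ∀ θ, M.P θ H * M.w θ β ^ b * M.w θ (!β) ^ J ≤ M.P θ (cell M A O t) := by
    intro θ
    have hsub : H ∩ (atom B t ∩ {u | ∀ j ∈ (univ : Finset (Fin J)), u ∈ X j}) ⊆
        cell M A O t := by
      rintro u ⟨huH, huB, huX⟩ m hm
      have huB' : ∀ z ∈ B, u z = β := fun z hz => (huB z hz).trans (htB z hz)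
      rcases (hO m).1 hm with hm | hm | ⟨⟨j, i⟩, rfl⟩
      · rw [huH m hm, ht m hm]
      · rw [hfB m hm u huH, hfB m hm t ht, huB m hm]
      · rw [htT, h1 u huH huB' j i (huX j (Finset.mem_univ j))]
    have hDL := hU.inter ((dep_atom B t).inter hXall)
    have h3 : M.P θ (H ∩ (atom B t ∩ {u | ∀ j ∈ (univ : Finset (Fin J)), u ∈ X j})) =
        M.P θ H * M.w θ β ^ b * M.w θ (!β) ^ J := by
      rw [M.P_inter θ U (B ∪ univ.biUnion fun j => ({x j} : Finset ℕ)) _ _ hU
          ((dep_atom B t).inter hXall) hUB1,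
        M.P_inter θ B (univ.biUnion fun j => ({x j} : Finset ℕ)) _ _ (dep_atom B t) hXall hUB2,
        M.P_family θ univ _ X hX hdX, hatomB]
      have : ∀ j, M.P θ (X j) = M.w θ (!β) := fun j => M.P_coord θ (x j) (!β)
      simp only [this, Finset.prod_const, Finset.card_univ, Fintype.card_fin]
      ring
    rw [← h3]
    exact M.P_mono (U := (U ∪ (B ∪ univ.biUnion fun j => ({x j} : Finset ℕ))) ∪ range n)
      (hDL.mono Finset.subset_union_left) (hDcell.mono Finset.subset_union_right) hsub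
  -- upper bound
  have hup : ∀ θ, M.P θ (cell M A O t) ≤ M.P θ H * M.w θ β ^ b *
      (M.w θ (!β) + (1 - M.w θ (!β) ^ L) ^ nn) ^ J := by
    intro θ
    have hsub : cell M A O t ⊆
        H ∩ (atom B t ∩ {u | ∀ j ∈ (univ : Finset (Fin J)), u ∈ F j}) := by
      intro u hu
      have huH : u ∈ H := by
        rw [hH, ← cell_congr ht]
        exact fun j hj => hu j ((hO j).2 (Or.inl hj))
      have huB : u ∈ atom B t := by
        intro i hi
        have := hu i ((hO i).2 (Or.inr (Or.inl hi)))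
        rwa [hfB i hi u huH, hfB i hi t ht] at this
      have huB' : ∀ z ∈ B, u z = β := fun z hz => (huB z hz).trans (htB z hz)
      refine ⟨huH, huB, fun j _ => ?_⟩
      by_cases hx : u (x j) = !β
      · exact Or.inl hx
      · right
        have hx' : u (x j) = β := by cases h5 : u (x j) <;> cases β <;> simp_all
        intro m _ hm
        have h3 := h2 u huH huB' j m hx' hm
        have h4 := hu (T (j, m)) ((hO _).2 (Or.inr (Or.inr ⟨_, rfl⟩)))
        rw [htT, h3] at h4
        cases β <;> simp at h4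
    have hDU := hU.inter ((dep_atom B t).inter hFall)
    have hPF : ∀ j, M.P θ (F j) ≤ M.w θ (!β) + (1 - M.w θ (!β) ^ L) ^ nn := by
      intro j
      refine (M.P_union_le (U := {x j} ∪ univ.biUnion fun m => W (j, m))
        ((hX j).mono Finset.subset_union_left) ((hG2 j).mono Finset.subset_union_right)).trans ?_
      have e1 : M.P θ (X j) = M.w θ (!β) := M.P_coord θ (x j) (!β)
      have e2 : M.P θ {u | ∀ m ∈ (univ : Finset (Fin nn)), u ∈ G (j, m)} =
          (1 - M.w θ (!β) ^ L) ^ nn := by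
        rw [M.P_family θ univ (fun m => W (j, m)) (fun m => G (j, m)) (fun m => hG (j, m))
          (fun m m' hm => hdWW _ _ (fun h => hm (congrArg Prod.snd h)))]
        have : ∀ m, M.P θ (G (j, m)) = 1 - M.w θ (!β) ^ L := by
          intro m
          simp only [G]
          rw [M.P_compl (dep_atom _ _), M.P_atom, Finset.prod_const, hWcard]
        simp only [this, Finset.prod_const, Finset.card_univ, Fintype.card_fin]
      rw [e1, e2]
    have h3 : M.P θ (H ∩ (atom B t ∩ {u | ∀ j ∈ (univ : Finset (Fin J)), u ∈ F j})) =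
        M.P θ H * M.w θ β ^ b * ∏ j, M.P θ (F j) := by
      rw [M.P_inter θ U (B ∪ univ.biUnion fun j => ({x j} ∪ univ.biUnion fun m => W (j, m)))
          _ _ hU ((dep_atom B t).inter hFall) hUB3,
        M.P_inter θ B (univ.biUnion fun j => ({x j} ∪ univ.biUnion fun m => W (j, m)))
          _ _ (dep_atom B t) hFall hUB4,
        M.P_family θ univ _ F hF hdF, hatomB]
      ring
    have h4 : ∏ j, M.P θ (F j) ≤ (M.w θ (!β) + (1 - M.w θ (!β) ^ L) ^ nn) ^ J := by
      calc ∏ j, M.P θ (F j) ≤ ∏ _j : Fin J, (M.w θ (!β) + (1 - M.w θ (!β) ^ L) ^ nn) :=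
            Finset.prod_le_prod (fun j _ => M.P_nonneg _ _) (fun j _ => hPF j)
        _ = _ := by rw [Finset.prod_const, Finset.card_univ, Fintype.card_fin]
    have h5 : 0 ≤ M.P θ H * M.w θ β ^ b :=
      mul_nonneg (M.P_nonneg _ _) (pow_nonneg (M.w_pos _ _).le _)
    calc M.P θ (cell M A O t)
        ≤ M.P θ (H ∩ (atom B t ∩ {u | ∀ j ∈ (univ : Finset (Fin J)), u ∈ F j})) :=
          M.P_mono (U := range n ∪ (U ∪ (B ∪ univ.biUnion fun j => ({x j} ∪ univ.biUnion fun m => W (j, m)))))
            (hDcell.mono Finset.subset_union_left) (hDU.mono Finset.subset_union_right) hsub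
      _ = M.P θ H * M.w θ β ^ b * ∏ j, M.P θ (F j) := h3
      _ ≤ _ := mul_le_mul_of_nonneg_left h4 h5
  -- conclusion
  have key1 : M.w (!β) β * M.P (!β) (cell M A O t) < M.w β β * M.P β (cell M A O t) :=
    calc M.w (!β) β * M.P (!β) (cell M A O t) ≤ _ :=
          mul_le_mul_of_nonneg_left (hup (!β)) (M.w_pos _ _).le
      _ < _ := N1
      _ ≤ _ := mul_le_mul_of_nonneg_left (hlow β) (M.w_pos _ _).le
  have key2 : M.w β (!β) * M.P β (cell M A O t) < M.w (!β) (!β) * M.P (!β) (cell M A O t) :=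
    calc M.w β (!β) * M.P β (cell M A O t) ≤ _ :=
          mul_le_mul_of_nonneg_left (hup β) (M.w_pos _ _).le
      _ < _ := N2
      _ ≤ _ := mul_le_mul_of_nonneg_left (hlow (!β)) (M.w_pos _ _).le
  intro σ
  by_cases hσ : σ = β
  · rw [hσ]; exact key1
  · have hσ' : σ = !β := by cases σ <;> cases β <;> simp_all
    rw [hσ', Bool.not_not]; exact key2

end

end Pool.Agent.MP_a79c01_pr
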