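import Pool.Agent.MP_a79c01_pr.H34.Accuracy

/-!
# One stage of the construction, and the limit network
-/

open Finset Filter Topology

namespace Pool.Agent.MP_a79c01_pr

section

variable {M : Model}

theorem eq_not_of_ne' {a b : Bool} (h : a ≠ b) : a = !b := by
  cases a <;> cases b <;> simp_all

theorem w_ratio_facts (M : Model) (β : Bool) {a b' : ℝ} (hb' : 0 < b') :
    a / b' * M.r1 β ≤ 1 ↔ M.w (!β) (!β) * a ≤ M.w β (!β) * b' := by
  have h1 : M.w (!β) (!β) = M.r1 β * M.w β (!β) := M.w_r1 β
  have h2 := M.w_pos β (!β)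
  rw [h1, div_mul_eq_mul_div, div_le_one hb']
  constructor
  · intro h
    nlinarith
  · intro h
    have h3 : (a * M.r1 β) * M.w β (!β) ≤ b' * M.w β (!β) := by linarith
    exact le_of_mul_le_mul_right h3 h2

/-- Adding `k` replicated fresh `!β`-signals to the public history. -/
theorem inc_of_count {A : Net} {p k : ℕ} {Q S : Finset ℕ} {s t : Om} {β : Bool}
    (hQp : Q ⊆ range p) (hS : ∀ z ∈ S, p ≤ z) (hfresh : ∀ z ∈ S, Fresh M A (cell M A Q s) z)
    {R : ℝ} (hR : M.P (!β) (cell M A Q s) = R * M.P β (cell M A Q s))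
    (ht : t ∈ cell M A Q s) (htS : ∀ z ∈ S, t z = !β) (hk : S.card = k)
    (h1 : R * M.r1 β ^ k ≤ 1) (h2 : 1 < R * M.r1 β ^ k * M.r1 β) : Inc M A (Q ∪ S) t := by
  have hD : ∀ θ, M.P θ (cell M A (Q ∪ S) t) = M.P θ (cell M A Q s) * M.w θ (!β) ^ k := by
    intro θ
    rw [cell_fresh hfresh ht, M.P_inter θ (range p) S _ _ (dep_cell hQp s) (dep_atom _ _) ?_,
      M.P_atom, Finset.prod_congr rfl (g := fun _ => M.w θ (!β)) (fun i hi => by rw [htS i hi]),
      Finset.prod_const, hk]
    rw [Finset.disjoint_left]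
    intro i hi hi'
    have := hS i hi'
    rw [mem_range] at hi
    omega
  have hpos : 0 < M.P β (cell M A Q s) * M.w β (!β) ^ k :=
    mul_pos (M.P_pos (dep_cell hQp s) (mem_cell_self _ _)) (pow_pos (M.w_pos _ _) _)
  have key : M.P (!β) (cell M A (Q ∪ S) t) = (R * M.r1 β ^ k) * M.P β (cell M A (Q ∪ S) t) := by
    rw [hD, hD, hR, M.w_r1, mul_pow]; ring
  have hposD : 0 < M.P β (cell M A (Q ∪ S) t) := by rw [hD]; exact hpos
  have r0pos := M.r0_pos β
  have r0lt := M.r0_lt_one β
  have k1 : M.w (!β) β * M.P (!β) (cell M A (Q ∪ S) t) <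
      M.w β β * M.P β (cell M A (Q ∪ S) t) := by
    rw [key, M.w_r0]
    have h3 : 0 < M.w β β * M.P β (cell M A (Q ∪ S) t) := mul_pos (M.w_pos _ _) hposD
    have h4 : M.r0 β * (R * M.r1 β ^ k) < 1 := by
      calc M.r0 β * (R * M.r1 β ^ k) ≤ M.r0 β * 1 := mul_le_mul_of_nonneg_left h1 r0pos.le
        _ < 1 := by linarith
    nlinarith
  have k2 : M.w β (!β) * M.P β (cell M A (Q ∪ S) t) <
      M.w (!β) (!β) * M.P (!β) (cell M A (Q ∪ S) t) := by
    rw [key, M.w_r1]
    have h3 : 0 < M.w β (!β) * M.P β (cell M A (Q ∪ S) t) := mul_pos (M.w_pos _ _) hposD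
    nlinarith
  intro σ
  by_cases hσ : σ = β
  · rw [hσ]; exact k1
  · have hσ' : σ = !β := eq_not_of_ne' hσ
    rw [hσ', Bool.not_not]; exact k2

/-- Step 2: process one public history. -/
theorem process {A : Net} {p : ℕ} {ε ε' : ℝ} (hεε : ε' ≤ ε) (hC : Cov M A p ε)
    (hAcc : Acc M A (range p) ε') (s : Om) {A' : Net} {m : ℕ} (hX : XExt M ε A p A' m) :
    ∃ B n', XExt M ε A' m B n' ∧ ∀ t ∈ cell M A (range p) s, Good M B n' t ε' := by
  classical
  have hE := hX.1
  have hpm := hE.1
  set Q := range p with hQ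
  have hQp : Q ⊆ range p := Finset.Subset.refl _
  set H := cell M A Q s with hH
  have hHeq : ∀ {B : Net} {l : ℕ}, Ext A p B l → cell M B Q s = H := fun h => h.cell_eq hQp s
  -- the favoured colour
  obtain ⟨β, hβ⟩ : ∃ β : Bool, M.P (!β) H ≤ M.P β H := by
    rcases le_total (M.P false H) (M.P true H) with h | h
    · exact ⟨true, by simpa using h⟩
    · exact ⟨false, by simpa using h⟩
  have hposθ : ∀ θ, 0 < M.P θ H := fun θ => M.P_pos (dep_cell hQp s) (mem_cell_self _ _)
  set R : ℝ := M.P (!β) H / M.P β H with hR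
  have hR0 : 0 < R := div_pos (hposθ _) (hposθ _)
  have hR1 : R ≤ 1 := by rw [hR, div_le_one (hposθ _)]; exact hβ
  have hRH : M.P (!β) H = R * M.P β H := by rw [hR, div_mul_cancel₀ _ (hposθ β).ne']
  by_cases hcase : R * M.r1 β ≤ 1
  · -- the gadget case
    obtain ⟨ny, K, b, J, nn, hny, C1, C2, T1, T2, N1, N2⟩ :=
      params M β (hposθ (!β)) (hposθ β) ((w_ratio_facts M β (hposθ β)).1 hcase)
    rw [← hR] at C1 C2 T1 T2
    -- number of `!β` needed
    have t1 : Tendsto (fun n : ℕ => M.r1 β ^ n) atTop atTop :=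
      tendsto_pow_atTop_atTop_of_one_lt (M.one_lt_r1 β)
    have r1pos := M.r1_pos β
    have ex : ∃ k : ℕ, 1 < R * M.r1 β ^ k * M.r1 β := by
      obtain ⟨n, hn⟩ := (t1.eventually_gt_atTop (1 / (R * M.r1 β))).exists
      refine ⟨n, ?_⟩
      rw [div_lt_iff₀ (by positivity)] at hn
      linarith
    let k0 := Nat.find ex
    have hk0 : 1 < R * M.r1 β ^ k0 * M.r1 β := Nat.find_spec ex
    have hk01 : 1 ≤ k0 := by
      by_contra h
      have h0 : k0 = 0 := by omega
      rw [h0, pow_zero, mul_one] at hk0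
      linarith
    have hk0min : R * M.r1 β ^ k0 ≤ 1 := by
      have := Nat.find_min ex (m := k0 - 1) (by
        have : k0 - 1 < k0 := by omega
        exact this)
      rw [not_lt] at this
      calc R * M.r1 β ^ k0 = R * M.r1 β ^ (k0 - 1) * M.r1 β := by
            rw [mul_assoc R, ← pow_succ, Nat.sub_add_cancel hk01]
        _ ≤ 1 := this
    obtain ⟨O, hOp, hOinc, hOacc⟩ := hC s
    let size := b + (J + J * (nn * (K * ny)))
    -- the supply
    obtain ⟨B1, m1, a, hE1, hainj, ha, haN, has⟩ := add_family A' m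
      (ι := Fin (k0 + size)) (fun _ => O) (fun _ => hOp.trans (range_subset_range.2 hpm))
    have hX1 : XExt M ε A' m B1 m1 := by
      refine ⟨hE1, fun k hk1 hk2 => ?_⟩
      obtain ⟨i, rfl⟩ := has k hk1 hk2
      exact err_le (hOacc.ext (hE.trans hE1) hOp) (by rw [haN])
    have hfr1 : ∀ i, Fresh M B1 H (a i) := by
      intro i t ht
      have h1 : Inc M B1 O s := hOinc.ext (hE.trans hE1) hOp
      have h2 := fresh_of_inc (M := M) (A := B1) (z := a i) (haN i)
        (hOp.trans (range_subset_range.2 (hpm.trans (ha i).1))) h1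
      refine h2 t ?_
      rw [(hE.trans hE1).cell_eq hOp]
      exact cell_anti hOp s ht
    -- loop over the patterns of the first `m1` signals
    let Done : (Fin m1 → Bool) → Net → ℕ → Prop := fun y B n' =>
      ∀ t, (∀ i ∈ range m1, t i = exty y i) → t ∈ H → Good M B n' t ε'
    have hmono : ∀ x A n B n', Ext A n B n' → Done x A n → Done x B n' :=
      fun x A n B n' hAB h t h1 h2 => (h t h1 h2).ext hAB
    obtain ⟨B, n', hXB, hdone⟩ := loop (M := M) ε (univ : Finset (Fin m1 → Bool)) Done hmono B1 m1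
      (by
        intro y _ A2 m2 hX2
        have hE2 := hX2.1
        have hEA2 : Ext A p A2 m2 := (hE.trans hE1).trans hE2
        have hfr2 : ∀ i, Fresh M A2 (cell M A2 Q s) (a i) := by
          intro i
          rw [hHeq hEA2]
          exact hE2.fresh (ha i).2 (hfr1 i)
        set t0 := exty y with ht0
        let Zn : Finset ℕ := (univ.image a).filter (fun z => t0 z = !β)
        let Zp : Finset ℕ := (univ.image a).filter (fun z => t0 z = β)
        have hZcard : Zn.card + Zp.card = k0 + size := by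
          have h1 := Finset.card_filter_add_card_filter_not (s := univ.image a)
            (fun z => t0 z = !β)
          have h2 : (univ.image a).filter (fun z => ¬ (t0 z = !β)) = Zp := by
            simp only [Zp]
            refine Finset.filter_congr (fun z _ => ?_)
            cases t0 z <;> cases β <;> simp
          rw [h2, Finset.card_image_of_injective _ hainj, Finset.card_univ, Fintype.card_fin] at h1
          exact h1
        have hmemZ : ∀ z ∈ univ.image a, p ≤ z ∧ z < m1 ∧ Fresh M A2 (cell M A2 Q s) z := by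
          intro z hz
          rw [Finset.mem_image] at hz
          obtain ⟨i, _, rfl⟩ := hz
          exact ⟨hpm.trans (ha i).1, (ha i).2, hfr2 i⟩
        have hRA2 : M.P (!β) (cell M A2 Q s) = R * M.P β (cell M A2 Q s) := by
          rw [hHeq hEA2]; exact hRH
        have hAccA2 : Acc M A2 Q ε' := hAcc.ext hEA2 hQp
        by_cases hn : k0 ≤ Zn.card
        · -- enough `!β` signals
          obtain ⟨S, hSZ, hScard⟩ := Finset.exists_subset_card_eq hn
          refine ⟨A2, m2, XExt.refl ε A2 m2, ?_⟩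
          intro t ht htH
          have hSprop : ∀ z ∈ S, z ∈ univ.image a ∧ t0 z = !β := fun z hz =>
            Finset.mem_filter.1 (hSZ hz)
          refine ⟨Q ∪ S, ?_, ?_, hAccA2.mono_set Finset.subset_union_left⟩
          · refine Finset.union_subset (range_subset_range.2 hEA2.1) ?_
            intro z hz
            have h1 := (hmemZ z (hSprop z hz).1).2.1
            have h2 := hE2.1
            rw [mem_range]; omega
          · refine inc_of_count (β := β) (s := s) hQp (fun z hz => (hmemZ z (hSprop z hz).1).1)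
              (fun z hz => (hmemZ z (hSprop z hz).1).2.2) hRA2 (by rw [hHeq hEA2]; exact htH)
              ?_ hScard hk0min hk0
            intro z hz
            rw [ht z (mem_range.2 (hmemZ z (hSprop z hz).1).2.1)]
            exact (hSprop z hz).2
        · -- the gadget
          have hZp : size ≤ Zp.card := by omega
          have hZpprop : ∀ z ∈ Zp, z ∈ univ.image a ∧ t0 z = β := fun z hz =>
            Finset.mem_filter.1 hz
          obtain ⟨B, n', O', hEB, hnew, hQO, hO', hinc⟩ := gadget_build (M := M) (A := A2)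
            (n := m2) (p := p) (Q := Q) (Z := Zp) (s := s) (β := β) hQp hEA2.1
            (fun z hz => ⟨(hmemZ z (hZpprop z hz).1).1, by
              have h1 := (hmemZ z (hZpprop z hz).1).2.1
              have h2 := hE2.1
              omega⟩)
            (fun z hz => (hmemZ z (hZpprop z hz).1).2.2) hR0 hRA2 hny C1 C2 T1 T2
            (by rw [hHeq hEA2]; exact N1) (by rw [hHeq hEA2]; exact N2) hZp
          refine ⟨B, n', ⟨hEB, ?_⟩, ?_⟩
          · intro k hk1 hk2
            exact (err_le (hAcc.ext (hEA2.trans hEB) hQp) (hnew k hk1 hk2)).trans hεε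
          · intro t ht htH
            refine ⟨O', hO', hinc t (by rw [hHeq hEA2]; exact htH) ?_,
              (hAcc.ext (hEA2.trans hEB) hQp).mono_set hQO⟩
            intro z hz
            rw [ht z (mem_range.2 (hmemZ z (hZpprop z hz).1).2.1)]
            exact (hZpprop z hz).2)
    refine ⟨B, n', hX1.trans hXB, ?_⟩
    intro t htH
    exact hdone (fun i => t i) (Finset.mem_univ _) t
      (fun i hi => (exty_restr t i hi).symm) htH
  · -- the public history is already inconclusive
    push Not at hcase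
    refine ⟨A', m, XExt.refl ε A' m, ?_⟩
    intro t ht
    refine ⟨Q, range_subset_range.2 hpm, ?_, hAcc.ext hE hQp⟩
    have h1 := inc_of_count (M := M) (A := A') (β := β) (p := p) (k := 0) (S := ∅) (s := s) (t := t)
      (R := R) hQp (by simp) (by simp) (by rw [hHeq hE]; exact hRH) (by rw [hHeq hE]; exact ht)
      (by simp) (by simp) (by simpa using hR1) (by simpa using hcase)
    simpa using h1

/-- One stage. -/
theorem stage {A : Net} {n : ℕ} {ε ε' : ℝ} (hε' : 0 < ε') (hεε : ε' ≤ ε) (hC : Cov M A n ε) :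
    ∃ B n', XExt M ε A n B n' ∧ n < n' ∧ Cov M B n' ε' := by
  classical
  obtain ⟨A1, p, hX1, hnp, hAcc⟩ := make_accurate hC hε'
  have hC1 : Cov M A1 p ε := hC.ext hX1.1
  let Done : (Fin p → Bool) → Net → ℕ → Prop := fun y B n' =>
    ∀ t ∈ cell M A1 (range p) (exty y), Good M B n' t ε'
  obtain ⟨B, n', hXB, hdone⟩ := loop (M := M) ε (univ : Finset (Fin p → Bool)) Done
    (fun x A n B n' hAB h t ht => (h t ht).ext hAB) A1 p
    (fun y _ A2 m2 hX2 => process hεε hC1 hAcc (exty y) hX2)
  refine ⟨B, n', hX1.trans hXB, lt_of_lt_of_le hnp hXB.1.1, ?_⟩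
  intro t
  refine hdone (fun i => t i) (Finset.mem_univ _) t ?_
  have h1 := dep_cell (M := M) (A := A1) (Finset.Subset.refl (range p))
    (exty (fun i : Fin p => t i))
  exact h1 (exty_restr t) (mem_cell_self _ _)

theorem cov_zero (A : Net) : Cov M A 0 1 := by
  intro t
  refine ⟨∅, by simp, ?_, ⟨fun _ => false, fun _ _ _ => rfl, fun θ => ?_⟩⟩
  · have : cell M A ∅ t = Set.univ := by
      ext u; simp [cell]
    intro β
    rw [this, M.P_univ, M.P_univ, mul_one, mul_one]
    exact M.w_lt β
  · cases θ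
    · have : {s : Om | false = !false} = ∅ := by ext s; simp
      rw [this, M.P_empty]
      norm_num
    · have : {s : Om | false = !true} = Set.univ := by ext s; simp
      rw [this, M.P_univ]

theorem exists_net (M : Model) : ∃ A : Net, Tendsto (fun k => Err M A k) atTop (𝓝 0) := by
  classical
  let St : ℕ → Type := fun g => {q : Net × ℕ // Cov M q.1 q.2 (1 / ((g : ℝ) + 1))}
  have hstep : ∀ g (q : St g), ∃ q' : St (g + 1),
      XExt M (1 / ((g : ℝ) + 1)) q.1.1 q.1.2 q'.1.1 q'.1.2 ∧ q.1.2 < q'.1.2 := by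
    intro g q
    have h1 : (0 : ℝ) < 1 / (((g + 1 : ℕ) : ℝ) + 1) := by positivity
    have h2 : (1 : ℝ) / (((g + 1 : ℕ) : ℝ) + 1) ≤ 1 / ((g : ℝ) + 1) := by
      apply one_div_le_one_div_of_le (by positivity)
      push_cast; linarith
    obtain ⟨B, n', hX, hlt, hC⟩ := stage h1 h2 q.2
    exact ⟨⟨(B, n'), hC⟩, hX, hlt⟩
  choose F hF1 hF2 using hstep
  let E0 : Net := ⟨fun _ => ∅, by simp⟩
  let q0 : St 0 := ⟨(E0, 0), by
    have := cov_zero (M := M) E0
    simpa using this⟩
  let f : (g : ℕ) → St g := fun g => Nat.rec q0 (fun g q => F g q) g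
  have hf : ∀ g, f (g + 1) = F g (f g) := fun g => rfl
  let Ag : ℕ → Net := fun g => (f g).1.1
  let ng : ℕ → ℕ := fun g => (f g).1.2
  have hX : ∀ g : ℕ, XExt M (1 / ((g : ℝ) + 1)) (Ag g) (ng g) (Ag (g + 1)) (ng (g + 1)) := by
    intro g
    exact hF1 g (f g)
  have hlt : ∀ g, ng g < ng (g + 1) := fun g => hF2 g (f g)
  have hge : ∀ g, g ≤ ng g := by
    intro g
    induction g with
    | zero => exact Nat.zero_le _
    | succ g ih => have := hlt g; omega
  have hchain : ∀ g d : ℕ, XExt M (1 / ((g : ℝ) + 1)) (Ag g) (ng g) (Ag (g + d)) (ng (g + d)) := by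
    intro g d
    induction d with
    | zero => exact XExt.refl _ _ _
    | succ d ih =>
      refine ih.trans ((hX (g + d)).mono ?_)
      apply one_div_le_one_div_of_le (by positivity)
      push_cast
      have : (0 : ℝ) ≤ d := Nat.cast_nonneg d
      linarith
  have hchain' : ∀ g g' : ℕ, g ≤ g' → XExt M (1 / ((g : ℝ) + 1)) (Ag g) (ng g) (Ag g') (ng g') := by
    intro g g' h
    obtain ⟨d, rfl⟩ := Nat.exists_eq_add_of_le h
    exact hchain g d
  let Ainf : Net := ⟨fun k => (Ag (k + 1)).N k, fun k => (Ag (k + 1)).valid k⟩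
  have hinf : ∀ g, Ext (Ag g) (ng g) Ainf (ng g) := by
    intro g
    refine ⟨le_rfl, fun k hk => ?_⟩
    show (Ag (k + 1)).N k = (Ag g).N k
    rcases le_total g (k + 1) with h | h
    · exact (hchain' _ _ h).1.2 k hk
    · have hk' : k < ng (k + 1) := by have := hge (k + 1); omega
      exact ((hchain' _ _ h).1.2 k hk').symm
  refine ⟨Ainf, ?_⟩
  rw [Metric.tendsto_atTop]
  intro ε hε
  obtain ⟨g, hg⟩ := exists_nat_one_div_lt hε
  refine ⟨ng g, fun k hk => ?_⟩
  have h1 : Err M Ainf k ≤ 1 / ((g : ℝ) + 1) := by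
    have h2 : g ≤ max g (k + 1) := le_max_left _ _
    have h3 : k < ng (max g (k + 1)) := by
      have := hge (max g (k + 1))
      have := le_max_right g (k + 1)
      omega
    rw [(hinf (max g (k + 1))).err_eq h3]
    exact (hchain' _ _ h2).2 k hk h3
  have h4 : 0 ≤ Err M Ainf k := by
    unfold Err
    have := M.P_nonneg false {s | act M Ainf k s = true}
    have := M.P_nonneg true {s | act M Ainf k s = false}
    linarith
  rw [Real.dist_eq, sub_zero, abs_of_nonneg h4]
  linarith

end

end Pool.Agent.MP_a79c01_pr
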