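import Pool.Agent.MP_a79c01_pr.H34.Gadget

/-!
# The `T`-agents
-/

open Finset

namespace Pool.Agent.MP_a79c01_pr

section

variable {M : Model} {A : Net}

theorem act_T {Q U B : Finset ℕ} {s : Om} {x T K ny b : ℕ} {Y : Fin K → Finset ℕ}
    {c : Fin K → ℕ}
    (hNT : ∀ m, m ∈ A.N T ↔ (m ∈ Q ∨ m ∈ B ∨ m = x ∨ ∃ k, m = c k))
    (hNc : ∀ k, A.N (c k) = Q ∪ insert x (Y k))
    (hfB : ∀ z ∈ B, Fresh M A (cell M A Q s) z)
    (hfx : Fresh M A (cell M A Q s) x)
    (hfY : ∀ k, ∀ z ∈ Y k, Fresh M A (cell M A Q s) z)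
    (hU : Dep U (cell M A Q s))
    (hd1 : Disjoint U (insert T (insert x B)))
    (hd2 : ∀ k, Disjoint (U ∪ insert T (insert x B)) (insert (c k) (Y k)))
    (hd3 : ∀ k k', k ≠ k' → Disjoint (insert (c k) (Y k)) (insert (c k') (Y k')))
    (hxB : x ∉ B) (hTB : T ∉ insert x B) (hBcard : B.card = b)
    (hc : ∀ k, c k ∉ Y k) (hYcard : ∀ k, (Y k).card = ny) (hny : 1 ≤ ny)
    {β : Bool} {R : ℝ} (hR0 : 0 < R)
    (hR : M.P (!β) (cell M A Q s) = R * M.P β (cell M A Q s))
    (C1 : 1 < R * M.r1 β ^ (ny + 1) * M.r0 β) (C2 : R * M.r1 β ^ ny * M.r0 β ^ 2 < 1)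
    (T1 : R * M.r0 β ^ b * M.r1 β ^ (ny * K + 2) < 1)
    (T2 : 1 < R * M.r0 β ^ (b + 2) * M.r1 β ^ ((ny + 1) * K))
    {t : Om} (ht : t ∈ cell M A Q s) (htB : ∀ z ∈ B, t z = β) :
    (t x = (!β) → act M A T t = β) ∧
    ((∀ k, ∀ z ∈ Y k, t z = β) → t x = β → act M A T t = β) ∧
    (t x = β → (∀ k, ∀ z ∈ insert (c k) (Y k), t z = !β) → act M A T t = !β) := by
  classical
  set H := cell M A Q s with hH
  set W : Finset ℕ := insert T (insert x B) with hW
  set e : ℕ := if t x = β then 1 else 0 with he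
  let V : Fin K → Finset ℕ := fun k => insert (c k) (Y k)
  have hVcard : ∀ k, (V k).card = ny + 1 := fun k => by
    simp only [V]
    rw [Finset.card_insert_of_notMem (hc k), hYcard k]
  have hxW : x ∈ W := by simp [hW]
  have hxV : ∀ k, x ∉ V k := fun k hx =>
    Finset.disjoint_left.1 (hd2 k) (Finset.mem_union_right _ hxW) hx
  have hWcard : W.card = b + 2 := by
    rw [hW, Finset.card_insert_of_notMem hTB, Finset.card_insert_of_notMem hxB, hBcard]
  -- action of the c-agents on H
  have hactc : ∀ k, ∀ u ∈ H, act M A (c k) u = (!β) ↔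
      cnt β (V k) u + (if u x = β then 1 else 0) ≤ 1 := by
    intro k u hu
    have hins : insert (c k) (insert x (Y k)) = insert x (V k) := by
      simp only [V]; rw [Finset.insert_comm]
    have hcard : (insert (c k) (insert x (Y k))).card = ny + 2 := by
      rw [hins, Finset.card_insert_of_notMem (hxV k), hVcard k]
    have hdisj : Disjoint U (insert (c k) (insert x (Y k))) := by
      rw [hins, Finset.disjoint_insert_right]
      refine ⟨fun hx => Finset.disjoint_left.1 hd1 hx hxW, ?_⟩
      exact (Finset.disjoint_union_left.1 (hd2 k)).1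
    have hS : ∀ z ∈ insert x (Y k), Fresh M A H z := by
      intro z hz
      rcases Finset.mem_insert.1 hz with rfl | hz
      · exact hfx
      · exact hfY k z hz
    have := act_c (hNc k) hS hU hdisj hR0 hR hu hcard C1 C2
    rw [this, hins, cnt_insert (hxV k)]
  let E : Fin K → Set Om := fun k =>
    {u | (cnt β (V k) u + e ≤ 1) ↔ (cnt β (V k) t + e ≤ 1)}
  have hE : ∀ k, Dep (V k) (E k) := by
    intro k u v huv hu
    simp only [E, Set.mem_ofPred_eq] at hu ⊢
    rw [← cnt_congr huv]; exact hu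
  -- the information cell
  have hinfo : info M A T t = H ∩ (atom W t ∩ {u | ∀ k ∈ (univ : Finset (Fin K)), u ∈ E k}) := by
    ext u
    constructor
    · rintro ⟨h1, h2⟩
      have huH : u ∈ H := by
        rw [hH, ← cell_congr ht]
        exact fun j hj => h2 j ((hNT j).2 (Or.inl hj))
      have hux : u x = t x := by
        have := h2 x ((hNT x).2 (Or.inr (Or.inr (Or.inl rfl))))
        rwa [hfx u huH, hfx t ht] at this
      refine ⟨huH, ⟨?_, ?_⟩⟩
      · intro i hi
        rw [hW, Finset.mem_insert, Finset.mem_insert] at hi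
        rcases hi with rfl | rfl | hi
        · exact h1
        · exact hux
        · have := h2 i ((hNT i).2 (Or.inr (Or.inl hi)))
          rwa [hfB i hi u huH, hfB i hi t ht] at this
      · intro k _
        have h3 := h2 (c k) ((hNT (c k)).2 (Or.inr (Or.inr (Or.inr ⟨k, rfl⟩))))
        have h4 := hactc k u huH
        have h5 := hactc k t ht
        simp only [E, Set.mem_ofPred_eq]
        rw [hux] at h4
        rw [he, ← h4, ← h5, h3]
    · rintro ⟨huH, huW, huE⟩
      have hux : u x = t x := huW x hxW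
      refine ⟨huW T (by simp [hW]), fun m hm => ?_⟩
      rcases (hNT m).1 hm with hm | hm | rfl | ⟨k, rfl⟩
      · rw [huH m hm, ht m hm]
      · rw [hfB m hm u huH, hfB m hm t ht]
        exact huW m (by simp [hW, hm])
      · rw [hfx u huH, hfx t ht]; exact hux
      · have h4 := hactc k u huH
        have h5 := hactc k t ht
        have h6 : (cnt β (V k) u + e ≤ 1) ↔ (cnt β (V k) t + e ≤ 1) := huE k (Finset.mem_univ k)
        rw [hux, ← he] at h4
        rw [← he] at h5
        have h7 : act M A (c k) u = (!β) ↔ act M A (c k) t = (!β) := by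
          rw [h4, h5]; exact h6
        cases h8 : act M A (c k) u <;> cases h9 : act M A (c k) t <;> cases β <;>
          simp_all
  have hP : ∀ θ, M.P θ (info M A T t) =
      M.P θ H * (M.P θ (atom W t) * ∏ k, M.P θ (E k)) := by
    intro θ
    have hDE : Dep (univ.biUnion V) {u | ∀ k ∈ (univ : Finset (Fin K)), u ∈ E k} :=
      Model.dep_family univ V E hE
    have hdWV : Disjoint (U ∪ W) (univ.biUnion V) := by
      rw [Finset.disjoint_biUnion_right]
      exact fun k _ => hd2 k
    rw [hinfo, M.P_inter θ U (W ∪ univ.biUnion V) _ _ hU ((dep_atom W t).inter hDE) ?_,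
      M.P_inter θ W (univ.biUnion V) _ _ (dep_atom W t) hDE ?_,
      M.P_family θ univ V E hE hd3]
    · exact (Finset.disjoint_union_left.1 hdWV).2
    · rw [Finset.disjoint_union_right]
      exact ⟨hd1, (Finset.disjoint_union_left.1 hdWV).1⟩
  have hpos := info_pos (M := M) (A := A) β T t
  have hcntW : b ≤ cnt β W t := by
    have : B ⊆ W.filter (fun i => t i = β) := by
      intro i hi
      rw [Finset.mem_filter]
      exact ⟨by simp [hW, hi], htB i hi⟩
    have := Finset.card_le_card this
    rw [hBcard] at this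
    exact this
  have hPβE : 0 ≤ ∏ k, M.P β (E k) := Finset.prod_nonneg (fun k _ => M.P_nonneg _ _)
  -- conclusion `β`
  have concl1 : (∀ k, M.P (!β) (E k) ≤ M.r1 β ^ ny * M.P β (E k)) → act M A T t = β := by
    intro hk
    apply act_eq_of_lt
    have h1 : ∏ k, M.P (!β) (E k) ≤ (M.r1 β ^ ny) ^ K * ∏ k, M.P β (E k) := by
      calc ∏ k, M.P (!β) (E k) ≤ ∏ k, (M.r1 β ^ ny * M.P β (E k)) :=
            Finset.prod_le_prod (fun k _ => M.P_nonneg _ _) (fun k _ => hk k)
        _ = (M.r1 β ^ ny) ^ K * ∏ k, M.P β (E k) := by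
            rw [Finset.prod_mul_distrib, Finset.prod_const, Finset.card_univ, Fintype.card_fin]
    have h2 : M.P (!β) (atom W t) ≤ M.r0 β ^ b * M.r1 β ^ 2 * M.P β (atom W t) := by
      rw [M.P_atom_ratio]
      refine mul_le_mul_of_nonneg_right ?_ (M.P_nonneg _ _)
      have := M.ratio_anti β (n := b + 2) hcntW
      rw [hWcard]
      simpa using this
    have h3 : M.P (!β) (atom W t) * ∏ k, M.P (!β) (E k) ≤
        (M.r0 β ^ b * M.r1 β ^ 2 * M.P β (atom W t)) *
          ((M.r1 β ^ ny) ^ K * ∏ k, M.P β (E k)) := by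
      refine mul_le_mul h2 h1 (Finset.prod_nonneg (fun k _ => M.P_nonneg _ _)) ?_
      have := M.r0_pos β
      have := M.r1_pos β
      have := M.P_nonneg β (atom W t)
      positivity
    have hr : 0 ≤ R * M.P β H := mul_nonneg hR0.le (M.P_nonneg _ _)
    calc M.P (!β) (info M A T t)
        = R * M.P β H * (M.P (!β) (atom W t) * ∏ k, M.P (!β) (E k)) := by rw [hP, hR]
      _ ≤ R * M.P β H * ((M.r0 β ^ b * M.r1 β ^ 2 * M.P β (atom W t)) *
          ((M.r1 β ^ ny) ^ K * ∏ k, M.P β (E k))) := mul_le_mul_of_nonneg_left h3 hr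
      _ = (R * M.r0 β ^ b * M.r1 β ^ (ny * K + 2)) *
          (M.P β H * (M.P β (atom W t) * ∏ k, M.P β (E k))) := by
            rw [pow_add, pow_mul]; ring
      _ = (R * M.r0 β ^ b * M.r1 β ^ (ny * K + 2)) * M.P β (info M A T t) := by rw [hP]
      _ < 1 * M.P β (info M A T t) := mul_lt_mul_of_pos_right T1 hpos
      _ = M.P β (info M A T t) := one_mul _
  -- conclusion `!β`
  have concl2 : (∀ k, M.P (!β) (E k) = M.r1 β ^ (ny + 1) * M.P β (E k)) →
      act M A T t = !β := by
    intro hk
    apply act_eq_of_lt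
    rw [Bool.not_not]
    have h1 : ∏ k, M.P (!β) (E k) = (M.r1 β ^ (ny + 1)) ^ K * ∏ k, M.P β (E k) := by
      calc ∏ k, M.P (!β) (E k) = ∏ k, (M.r1 β ^ (ny + 1) * M.P β (E k)) :=
            Finset.prod_congr rfl (fun k _ => hk k)
        _ = (M.r1 β ^ (ny + 1)) ^ K * ∏ k, M.P β (E k) := by
            rw [Finset.prod_mul_distrib, Finset.prod_const, Finset.card_univ, Fintype.card_fin]
    have h2 : M.r0 β ^ (b + 2) * M.P β (atom W t) ≤ M.P (!β) (atom W t) := by
      rw [M.P_atom_ratio]
      refine mul_le_mul_of_nonneg_right ?_ (M.P_nonneg _ _)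
      have := M.ratio_anti β (n := b + 2) (b := b + 2) (a := cnt β W t)
        (hWcard ▸ cnt_le β W t)
      rw [hWcard]
      simpa using this
    have hr : 0 ≤ R * M.P β H := mul_nonneg hR0.le (M.P_nonneg _ _)
    have hr1 : 0 ≤ (M.r1 β ^ (ny + 1)) ^ K * ∏ k, M.P β (E k) :=
      mul_nonneg (pow_nonneg (pow_nonneg (M.r1_pos β).le _) _) hPβE
    calc M.P β (info M A T t) = 1 * M.P β (info M A T t) := (one_mul _).symm
      _ < (R * M.r0 β ^ (b + 2) * M.r1 β ^ ((ny + 1) * K)) * M.P β (info M A T t) :=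
          mul_lt_mul_of_pos_right T2 hpos
      _ = (R * M.r0 β ^ (b + 2) * M.r1 β ^ ((ny + 1) * K)) *
          (M.P β H * (M.P β (atom W t) * ∏ k, M.P β (E k))) := by rw [hP]
      _ = R * M.P β H * ((M.r0 β ^ (b + 2) * M.P β (atom W t)) *
          ((M.r1 β ^ (ny + 1)) ^ K * ∏ k, M.P β (E k))) := by rw [pow_mul]; ring
      _ ≤ R * M.P β H * (M.P (!β) (atom W t) *
          ((M.r1 β ^ (ny + 1)) ^ K * ∏ k, M.P β (E k))) :=
          mul_le_mul_of_nonneg_left (mul_le_mul_of_nonneg_right h2 hr1) hr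
      _ = M.P (!β) (info M A T t) := by rw [hP, hR, h1]
  have upge : ∀ k, ∀ F : Set Om, Dep (V k) F → (∀ u ∈ F, 1 ≤ cnt β (V k) u) →
      M.P (!β) F ≤ M.r1 β ^ ny * M.P β F := fun k F hF h => M.up_of_cnt β (hVcard k) hF h
  refine ⟨fun hx => ?_, fun hY hx => ?_, fun hx hV => ?_⟩
  · -- `t x = !β`
    apply concl1
    have he0 : e = 0 := by
      rw [he, hx]; cases β <;> simp
    intro k
    by_cases hk : cnt β (V k) t + e ≤ 1
    · -- the event is `cnt ≤ 1`
      have hEk : E k = {u | cnt β (V k) u ≤ 1} := by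
        ext u
        simp only [E, Set.mem_ofPred_eq, he0, add_zero] at hk ⊢
        simp [hk]
      -- split
      let F1 : Set Om := {u | ∀ i ∈ Y k, u i = !β}
      let F2 : Set Om := {u | cnt β (V k) u ≤ 1} ∩ F1ᶜ
      have hYV : Y k ⊆ V k := Finset.subset_insert _ _
      have hF1' : Dep (Y k) F1 := by
        intro u v huv hu i hi
        rw [← huv i hi]; exact hu i hi
      have hF1 : Dep (V k) F1 := hF1'.mono hYV
      have hF2 : Dep (V k) F2 := by
        refine (Dep.inter (U := V k) (V := V k) ?_ hF1.compl).mono (by simp)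
        intro u v huv hu
        simp only [Set.mem_ofPred_eq] at hu ⊢
        rw [← cnt_congr huv]; exact hu
      have hun : E k = F1 ∪ F2 := by
        rw [hEk]
        ext u
        simp only [F2, Set.mem_union, Set.mem_inter_iff, Set.mem_compl_iff, Set.mem_ofPred_eq]
        constructor
        · intro h
          by_cases h1 : u ∈ F1
          · exact Or.inl h1
          · exact Or.inr ⟨h, h1⟩
        · rintro (h | h)
          · have h0 : cnt β (Y k) u = 0 := cnt_eq_zero.2 h
            simp only [V]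
            rw [cnt_insert (hc k), h0]
            split_ifs <;> simp
          · exact h.1
      have hdisj : Disjoint F1 F2 := by
        rw [Set.disjoint_left]
        rintro u hu ⟨_, hu'⟩
        exact hu' hu
      rw [hun, M.P_union _ (V k) _ _ hF1 hF2 hdisj, M.P_union _ (V k) _ _ hF1 hF2 hdisj]
      have b2 : M.P (!β) F2 ≤ M.r1 β ^ ny * M.P β F2 := by
        refine upge k F2 hF2 ?_
        rintro u ⟨_, hu⟩
        by_contra h
        have h0 : cnt β (V k) u = 0 := by omega
        rw [cnt_eq_zero] at h0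
        exact hu (fun i hi => h0 i (hYV hi))
      have b1 : M.P (!β) F1 = M.r1 β ^ ny * M.P β F1 := by
        have hF1eq : F1 = atom (Y k) (fun _ => !β) := rfl
        rw [hF1eq, M.P_atom_ratio]
        have h0 : cnt β (Y k) (fun _ => !β) = 0 := cnt_eq_zero.2 (fun _ _ => rfl)
        rw [h0, hYcard k]
        simp
      rw [b1]
      linarith
    · -- the event is `2 ≤ cnt`
      refine upge k _ (hE k) ?_
      intro u hu
      simp only [E, Set.mem_ofPred_eq, he0, add_zero] at hu hk
      rw [iff_false_right hk] at hu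
      omega
  · -- `t = β` on all the supply
    apply concl1
    have he1 : e = 1 := by rw [he, if_pos hx]
    intro k
    refine upge k _ (hE k) ?_
    intro u hu
    have hk : ¬ (cnt β (V k) t + e ≤ 1) := by
      rw [he1]
      have h1 : cnt β (Y k) t = ny := by rw [cnt_eq_card (hY k), hYcard k]
      have h2 : cnt β (Y k) t ≤ cnt β (V k) t := by
        simp only [V]
        rw [cnt_insert (hc k)]
        omega
      omega
    simp only [E, Set.mem_ofPred_eq] at hu
    rw [iff_false_right hk, he1] at hu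
    omega
  · -- all block coordinates are `!β`
    apply concl2
    have he1 : e = 1 := by rw [he, if_pos hx]
    intro k
    have h0 : cnt β (V k) t = 0 := cnt_eq_zero.2 (hV k)
    have hEk : E k = atom (V k) t := by
      ext u
      simp only [E, Set.mem_ofPred_eq, he1, h0]
      have : cnt β (V k) u + 1 ≤ 1 ↔ cnt β (V k) u = 0 := by omega
      simp only [this, zero_add, le_refl, iff_true]
      rw [cnt_eq_zero]
      refine forall₂_congr (fun i hi => ?_)
      rw [hV k i hi]
    rw [hEk, M.P_atom_ratio, h0, hVcard k]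
    simp

end

end Pool.Agent.MP_a79c01_pr
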